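import Pool.Agent.Lib_helper24.FAM.DefsT

set_option autoImplicit false

/-!
# The clauses of the theorem: finite groups in general, points of order ten and twelve, and the
rational numbers
-/

open scoped TensorProduct WithZero

namespace Pool.Agent.FK4

open Pool.Agent.MK4 WeierstrassCurve.Affine

variable {k : Type*} [Field k] [DecidableEq k] {W : WeierstrassCurve.Affine k} {F : Type*}
  [Field F] [Algebra k F]

/-- The automorphisms of the field `k` which fix the coefficients of the curve act transitively on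
the points `(x, y)` with `p (x, y) = 0`. -/
def GalTrans (W : WeierstrassCurve.Affine k) (p : ℕ) : Prop :=
  ∀ (x y x' y' : k) (h : W.Nonsingular x y) (h' : W.Nonsingular x' y'),
    p • Point.some x y h = 0 → p • Point.some x' y' h' = 0 →
      ∃ s : k ≃+* k, s W.a₁ = W.a₁ ∧ s W.a₂ = W.a₂ ∧ s W.a₃ = W.a₃ ∧ s W.a₄ = W.a₄ ∧
        s W.a₆ = W.a₆ ∧ s x = x' ∧ s y = y'

/-- Finite groups with independent numbers `γ(a)`: the closed elements which are built on the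
quotients of lines are constant; if the order is a prime `p ≥ 5`, the quotients of lines and the
constants are all the solutions of the unit equation, and the constants are all the closed
elements.  If the order is a prime `p ≥ 5` and the `j`-invariant is transcendental over `ℚ`, then
the `γ(a)` are independent.  The same is true if `j` is not in some valuation ring of `k` in which
`p` is invertible, if some point of order `p` is not in `H`, and if the automorphisms of `k` which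
fix the curve act transitively on the points of order `p`. -/
def General [CharZero k] (H : AddSubgroup W.Point) [Fintype H] (X Y : F) : Prop :=
  (SiegelIndep H → (∀ z ∈ SpL H X Y, Closed z → z ∈ Cst k F) ∧
    ((Fintype.card H).Prime → 5 ≤ Fintype.card H → UnitEqS H X Y ∧ ClosedIn H X Y ⊥)) ∧
  ((Fintype.card H).Prime → 5 ≤ Fintype.card H →
    (Transcendental ℚ (W.c₄ ^ 3 / W.Δ) → SiegelIndep H) ∧
    ((∃ O : ValuationSubring k, (Fintype.card H : k)⁻¹ ∈ O ∧ W.c₄ ^ 3 / W.Δ ∉ O) →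
      (∃ P : W.Point, Fintype.card H • P = 0 ∧ P ∉ H) → GalTrans W (Fintype.card H) →
        SiegelIndep H))

/-- Groups of order at most three, and groups of order four whose elements are killed by two:
the closed elements are constant. -/
def SmallGroup (H : AddSubgroup W.Point) [Fintype H] (X Y : F) : Prop :=
  Fintype.card H ≤ 3 ∨ (Fintype.card H = 4 ∧ ∀ a : H, a + a = 0) → ClosedIn H X Y ⊥

/-- Points of order ten. -/
def Ten (P : W.Point) (X Y : F) : Prop :=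
  ∃ (t b c e : k) (x y : F), c = t * (t - 1) * (2 * t - 1) / (t - (t - 1) ^ 2) ∧
    b = t ^ 2 / (t - (t - 1) ^ 2) * c ∧ e = t / (t - (t - 1) ^ 2) * c ∧ Tate P X Y b c x y ∧
    (Indep4 t (t - 1) (2 * t - 1) (t ^ 2 - 3 * t + 1) →
      UnitEq10 (AddSubgroup.zmultiples P) X Y b c e x y ∧
        ClosedIn (AddSubgroup.zmultiples P) X Y ⊥) ∧
    (t = 2 ∨ 3 * t = 1 ∨ t = -1 ∨ 3 * t = 2 → Line P X Y) ∧
    (t = 3 ∨ 5 * t = 2 ∨ 2 * t = 5 ∨ 8 * t = 3 ∨ 2 * t = -1 ∨ 4 * t = 3 ∨ 2 * t = 3 ∨ 4 * t = 1 →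
      ClosedIn (AddSubgroup.zmultiples P) X Y ⊥)

/-- `a`, `b`, `c`, `d` and `e` are multiplicatively independent. -/
def Indep5 {k : Type*} [Field k] (a b c d e : k) : Prop :=
  ∀ l m n o p : ℤ, a ^ l * b ^ m * c ^ n * d ^ o * e ^ p = 1 →
    l = 0 ∧ m = 0 ∧ n = 0 ∧ o = 0 ∧ p = 0

/-- The curve `y² + (1-c)xy - by = x³ - bx²`. -/
def WTate (b c : k) : WeierstrassCurve.Affine k := ⟨1 - c, -b, -b, 0, 0⟩

/-- `f` is a quotient of lines as in `LineS` for the curve `y² + (1-c)xy - by = x³ - bx²`, the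
multiples of its point `(0,0)`, and a point of it with abscissa `x`. -/
def LineT (b c : k) (x f : F) : Prop :=
  ∃ (y : F) (h : (WTate b c).Nonsingular 0 0),
    y ^ 2 + (1 - algebraMap k F c) * x * y - algebraMap k F b * y =
      x ^ 3 - algebraMap k F b * x ^ 2 ∧
    LineS (AddSubgroup.zmultiples (Point.some 0 0 h)) x y f

/-- The unit equation on the functions supported on `H`, for a group of order twelve: the
constants, and the quotients of lines on `E`, on `E/⟨6P⟩` and on `E/⟨4P⟩` (in Tate's normal form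
with respect to the images of `P`, of order six and four; `e₃`, `e₄`, `e₅`, `e₆` are the abscissas
of `3P`, `4P`, `5P`, `6P`). -/
def UnitEq12 (H : AddSubgroup W.Point) (X Y : F) (t : k) (x : F) : Prop :=
  ∃ (e₃ e₄ e₅ e₆ c₆ b₄ : k) (x₆ x₄ : F),
    e₃ = t * (2 * t - 1) * (3 * t ^ 2 - 3 * t + 1) / (1 - t) ^ 3 ∧
    e₄ = t * (2 * t - 1) * (2 * t ^ 2 - 2 * t + 1) / (1 - t) ^ 2 ∧
    e₅ = e₄ * (3 * t ^ 2 - 3 * t + 1) / (1 - t) ^ 3 ∧
    e₆ = t * (3 * t ^ 2 - 3 * t + 1) / (t - 1) ∧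
    c₆ = t * (t - 1) * (2 * t - 1) ^ 2 / (3 * t ^ 2 - 3 * t + 1) ∧
    b₄ = t * (t - 1) * (3 * t ^ 2 - 3 * t + 1) ^ 3 / (2 * t - 1) ^ 2 ∧
    x₆ = algebraMap k F ((1 - t) ^ 6 / (3 * t ^ 2 - 3 * t + 1) ^ 2) *
      (x * (x - algebraMap k F e₅) / (x - algebraMap k F e₆)) ∧
    x₄ = algebraMap k F ((1 - t) ^ 6 / (2 * t - 1) ^ 2) *
      (x * (x - algebraMap k F e₃) * (x - algebraMap k F e₅) / (x - algebraMap k F e₄) ^ 2) ∧
    ∀ f : F, (Supp H X Y f ∧ Supp H X Y (1 - f)) ↔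
      (∃ a : k, a ≠ 0 ∧ a ≠ 1 ∧ f = algebraMap k F a) ∨ LineS H X Y f ∨
        LineT (c₆ + c₆ ^ 2) c₆ x₆ f ∨ LineT b₄ 0 x₄ f

/-- Points of order twelve. -/
def Twelve (P : W.Point) (X Y : F) : Prop :=
  ∃ (t b c : k) (x y : F), c = t * (2 * t - 1) * (3 * t ^ 2 - 3 * t + 1) / (1 - t) ^ 3 ∧
    b = (2 * t ^ 2 - 2 * t + 1) / (1 - t) * c ∧ Tate P X Y b c x y ∧
    (Indep5 t (t - 1) (2 * t - 1) (2 * t ^ 2 - 2 * t + 1) (3 * t ^ 2 - 3 * t + 1) →
      (∀ a : k, a = t * (t - 1) * (2 * t - 1) ^ 2 / (3 * t ^ 2 - 3 * t + 1) ∨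
          a = -(t ^ 2 * (1 - t) ^ 2 / (3 * t ^ 2 - 3 * t + 1) ^ 2) →
        3 * a ≠ 1 ∧ 3 * a ≠ -1 ∧ 5 * a ≠ -1) →
      UnitEq12 (AddSubgroup.zmultiples P) X Y t x ∧
        ClosedIn (AddSubgroup.zmultiples P) X Y ⊥) ∧
    (3 * t = 1 ∨ 3 * t = 2 → Line P X Y) ∧
    (t = 2 ∨ t = -1 ∨ 2 * t = -1 ∨ 2 * t = 3 ∨ 4 * t = 1 ∨ 4 * t = 3 →
      ClosedIn (AddSubgroup.zmultiples P) X Y ⊥)

/-- Over `ℚ` the conditions of the clauses fail only for the following parameters. -/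
def OverQ : Prop :=
  (∀ c : ℚ, c ≠ 0 → c ≠ -1 → c = 1 ∨ c = -2 ∨ 2 * c = -1 ∨ Indep c (c + 1)) ∧
    (∀ d : ℚ, d ≠ 0 → d ≠ 1 → d = 2 ∨ d = -1 ∨ 2 * d = 1 ∨ Indep d (d - 1)) ∧
    (∀ d : ℚ, d ≠ 0 → d ≠ 1 → 2 * d ≠ 1 → d = 2 ∨ d = -1 ∨ 3 * d = 1 ∨ 3 * d = 2 ∨
      2 * d = 3 ∨ 2 * d = -1 ∨ 4 * d = 1 ∨ 4 * d = 3 ∨ Indep3 d (d - 1) (2 * d - 1)) ∧
    (∀ d : ℚ, d ≠ 0 → d ≠ 1 → d = 2 ∨ d = -1 ∨ 2 * d = 1 ∨
      (Indep3 d (d - 1) (d ^ 2 - d + 1) ∧ d ^ 3 - 3 * d ^ 2 + 1 ≠ 0 ∧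
        d ^ 3 + 3 * d ^ 2 - 6 * d + 1 ≠ 0)) ∧
    (∀ t : ℚ, t ≠ 0 → t ≠ 1 → 2 * t ≠ 1 → t = 2 ∨ 3 * t = 1 ∨ t = -1 ∨ 3 * t = 2 ∨
      t = 3 ∨ 5 * t = 2 ∨ 2 * t = 5 ∨ 8 * t = 3 ∨ 2 * t = -1 ∨ 4 * t = 3 ∨ 2 * t = 3 ∨
      4 * t = 1 ∨ Indep4 t (t - 1) (2 * t - 1) (t ^ 2 - 3 * t + 1)) ∧
    ∀ t : ℚ, t ≠ 0 → t ≠ 1 → 2 * t ≠ 1 → t = -1 ∨ t = 2 ∨ 2 * t = -1 ∨ 2 * t = 3 ∨
      3 * t = 1 ∨ 3 * t = 2 ∨ 4 * t = 1 ∨ 4 * t = 3 ∨
      (Indep5 t (t - 1) (2 * t - 1) (2 * t ^ 2 - 2 * t + 1) (3 * t ^ 2 - 3 * t + 1) ∧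
        ∀ a : ℚ, a = t * (t - 1) * (2 * t - 1) ^ 2 / (3 * t ^ 2 - 3 * t + 1) ∨
            a = -(t ^ 2 * (1 - t) ^ 2 / (3 * t ^ 2 - 3 * t + 1) ^ 2) →
          3 * a ≠ 1 ∧ 3 * a ≠ -1 ∧ 5 * a ≠ -1)

/-- Over `ℚ`, for every point of finite order (by Mazur's theorem the order is at most ten or
twelve): the closed elements are constant, or they are, up to the constants, the multiples of one
class without residues, whose regulator is not zero. -/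
def Rational.{v} : Prop :=
  ∀ (F : Type v) [Field F] [Algebra ℚ F] (W : WeierstrassCurve.Affine ℚ) (X Y : F),
    Generic W X Y → ∀ P : W.Point, addOrderOf P ≠ 0 → addOrderOf P ≤ 10 ∨ addOrderOf P = 12 →
      ClosedIn (AddSubgroup.zmultiples P) X Y ⊥ ∨ Line P X Y

end Pool.Agent.FK4
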