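import Pool.Agent.Lib_helper24.FAM.R45
import Pool.Agent.Lib_helper40.UP.Plain
import Pool.Agent.Lib_helper24.TJ.Main
import Pool.Agent.Lib_helper24.FAM.DefsU
import Pool.Agent.Lib_helper99.NK.F

set_option autoImplicit false

/-!
# Finite groups with independent Siegel numbers
-/

open scoped TensorProduct WithZero

namespace Pool.Agent.FK4

open Pool.Agent.MK4 WeierstrassCurve.Affine

variable {k : Type*} [Field k] [DecidableEq k] [CharZero k] {W : WeierstrassCurve.Affine k}
  {F : Type*} [Field F] [Algebra k F] {X Y : F}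

theorem general (hg : Generic W X Y) (H : AddSubgroup W.Point) [Fintype H] : General H X Y := by
  refine ⟨fun hS => ⟨fun z hz hc => ?_, fun hp h5 => ?_⟩,
    fun hp h5 => ⟨TJ.siegel_trans W H hp h5, fun hO hQ hG => NK.siegel_gal H hp h5 hO hQ hG⟩⟩
  · have hS' := siegelIndep_iff.mp hS
    have hS'' : ∀ [i : Fintype H], GK.SiegelIndep H := by
      intro i
      rename_i i'
      obtain rfl : i = i' := Subsingleton.elim _ _
      exact hS'
    exact GK.closed_SpL hg hS'' (show z ∈ GK.SpL H X Y from hz) hc
  · obtain ⟨h1, h2⟩ := prime hp h5 hS hg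
    exact ⟨h1, closedIn_bot hg h2⟩

end Pool.Agent.FK4
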