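import Pool.Agent.Lib_helper24.FAM.DefsT

set_option autoImplicit false

/-!
# Multiplicative independence over the rationals
-/

namespace Pool.Agent.FK4

lemma root_rat {x : ℚ} {n : ℤ} (hx1 : x ≠ 1) (hx2 : x ≠ -1) (h : x ^ n = 1) : n = 0 := by
  have h1 : |x| ^ n = 1 := by rw [← abs_zpow, h, abs_one]
  have h2 : |x| ≠ 1 := by
    intro h3
    rcases eq_or_eq_neg_of_abs_eq h3 with h4 | h4
    · exact hx1 h4
    · exact hx2 h4
  exact (zpow_eq_one_iff_right₀ (abs_nonneg x) h2).mp h1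

lemma val_not {r : ℕ} {z : ℤ} (h : ¬ (r : ℤ) ∣ z) : padicValRat r (z : ℚ) = 0 := by
  rw [padicValRat.of_int, padicValInt.eq_zero_of_not_dvd h]
  rfl

lemma val_dvd {r : ℕ} (hr : r.Prime) {z : ℤ} (hz : z ≠ 0) (h : (r : ℤ) ∣ z) :
    padicValRat r (z : ℚ) ≠ 0 := by
  have : Fact r.Prime := ⟨hr⟩
  have h1 : 1 ≤ padicValNat r z.natAbs :=
    one_le_padicValNat_of_dvd (Int.natAbs_ne_zero.mpr hz) (Int.natCast_dvd.mp h)
  rw [padicValRat.of_int]
  unfold padicValInt
  intro h2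
  have h3 : padicValNat r z.natAbs = 0 := by exact_mod_cast h2
  omega

/-- a prime which divides only one of four numbers -/
lemma key {r : ℕ} (hr : r.Prime) {A B C D : ℤ} (hA0 : A ≠ 0) (hB0 : B ≠ 0) (hC0 : C ≠ 0)
    (hD0 : D ≠ 0) {l m n s : ℤ} (h : (A : ℚ) ^ l * (B : ℚ) ^ m * (C : ℚ) ^ n * (D : ℚ) ^ s = 1)
    (hA : (r : ℤ) ∣ A) (hB : ¬ (r : ℤ) ∣ B) (hC : ¬ (r : ℤ) ∣ C) (hD : ¬ (r : ℤ) ∣ D) : l = 0 := by
  have : Fact r.Prime := ⟨hr⟩
  have a0 : (A : ℚ) ≠ 0 := by exact_mod_cast hA0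
  have b0 : (B : ℚ) ≠ 0 := by exact_mod_cast hB0
  have c0 : (C : ℚ) ≠ 0 := by exact_mod_cast hC0
  have d0 : (D : ℚ) ≠ 0 := by exact_mod_cast hD0
  have h1 := congrArg (padicValRat r) h
  rw [padicValRat.mul (mul_ne_zero (mul_ne_zero (zpow_ne_zero _ a0) (zpow_ne_zero _ b0))
    (zpow_ne_zero _ c0)) (zpow_ne_zero _ d0), padicValRat.mul (mul_ne_zero (zpow_ne_zero _ a0)
    (zpow_ne_zero _ b0)) (zpow_ne_zero _ c0), padicValRat.mul (zpow_ne_zero _ a0)
    (zpow_ne_zero _ b0), padicValRat.zpow, padicValRat.zpow, padicValRat.zpow, padicValRat.zpow,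
    val_not hB, val_not hC, val_not hD, padicValRat.one] at h1
  simp only [mul_zero, add_zero] at h1
  rcases mul_eq_zero.mp h1 with h2 | h2
  · exact h2
  · exact absurd h2 (val_dvd hr hA0 hA)

lemma exists_prime {z : ℤ} (h : z.natAbs ≠ 1) : ∃ r : ℕ, r.Prime ∧ (r : ℤ) ∣ z := by
  obtain ⟨r, hr, h1⟩ := Nat.exists_prime_and_dvd h
  exact ⟨r, hr, Int.natCast_dvd.mpr h1⟩

lemma dvd_one_absurd {r : ℕ} (hr : r.Prime) (h : (r : ℤ) ∣ 1) : False := by
  have h1 : r ∣ 1 := by exact_mod_cast h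
  exact hr.one_lt.ne' (Nat.dvd_one.mp h1)

/-- for rational `c` the numbers `c` and `c + 1` are independent with three exceptions -/
theorem indep_rat {c : ℚ} (h0 : c ≠ 0) (h1 : c ≠ -1) (h2 : c ≠ 1) (h3 : c ≠ -2)
    (h4 : c ≠ -1 / 2) : Indep c (c + 1) := by
  intro m n h
  obtain ⟨p, q, hq0, hco, hc⟩ : ∃ p q : ℤ, 0 < q ∧ IsCoprime p q ∧ c = p / q :=
    ⟨c.num, c.den, by exact_mod_cast c.pos, by
      rw [Int.isCoprime_iff_gcd_eq_one]; exact c.reduced, (Rat.num_div_den c).symm⟩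
  have hqQ : (q : ℚ) ≠ 0 := by exact_mod_cast hq0.ne'
  have hp0 : p ≠ 0 := by
    rintro rfl
    apply h0; rw [hc]; simp
  have hpq0 : p + q ≠ 0 := by
    intro h5
    apply h1
    rw [hc, div_eq_iff hqQ]
    have : (p : ℚ) + q = 0 := by exact_mod_cast h5
    linear_combination this
  have hc1 : c + 1 = (p + q : ℤ) / q := by
    rw [hc]; push_cast; field_simp
  have hH : (p : ℚ) ^ m * ((p + q : ℤ) : ℚ) ^ n * ((1 : ℤ) : ℚ) ^ (0 : ℤ) *
      (q : ℚ) ^ (-(m + n)) = 1 := by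
    rw [hc1, hc, div_zpow, div_zpow] at h
    rw [zpow_zero, mul_one, zpow_neg, zpow_add₀ hqQ]
    rw [← h]
    have a1 := zpow_ne_zero m hqQ
    have a2 := zpow_ne_zero n hqQ
    field_simp
  have npr : ∀ r : ℕ, r.Prime → ¬ ((r : ℤ) ∣ p ∧ (r : ℤ) ∣ q) := by
    rintro r hr ⟨g1, g2⟩
    obtain ⟨u, v, huv⟩ := hco
    apply dvd_one_absurd hr
    rw [← huv]
    exact dvd_add (dvd_mul_of_dvd_right g1 u) (dvd_mul_of_dvd_right g2 v)
  by_cases hp : p.natAbs = 1
  · by_cases hpq : (p + q).natAbs = 1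
    · exfalso
      have e1 : p = 1 ∨ p = -1 := Int.natAbs_eq_natAbs_iff.mp (by rw [hp]; rfl)
      have e2 : p + q = 1 ∨ p + q = -1 := Int.natAbs_eq_natAbs_iff.mp (by rw [hpq]; rfl)
      rcases e1 with e1 | e1 <;> rcases e2 with e2 | e2
      · omega
      · omega
      · apply h4
        have : q = 2 := by omega
        rw [hc, e1, this]
        norm_num
      · omega
    · obtain ⟨r, hr, hd⟩ := exists_prime hpq
      have g1 : ¬ (r : ℤ) ∣ q := fun g => npr r hr ⟨by
        have := dvd_sub hd g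
        rwa [add_sub_cancel_right] at this, g⟩
      have g2 : ¬ (r : ℤ) ∣ p := fun g => g1 (by
        have := dvd_sub hd g
        rwa [add_sub_cancel_left] at this)
      have hn : n = 0 := by
        refine key hr (A := p + q) (B := p) (C := 1) (D := q) (m := m) (n := 0)
          (s := -(m + n)) hpq0 hp0 one_ne_zero hq0.ne' ?_ hd g2
          (fun g => dvd_one_absurd hr g) g1
        rw [← hH]
        ring
      subst hn
      rw [zpow_zero, mul_one] at h
      exact ⟨root_rat h2 h1 h, rfl⟩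
  · obtain ⟨r, hr, hd⟩ := exists_prime hp
    have g1 : ¬ (r : ℤ) ∣ q := fun g => npr r hr ⟨hd, g⟩
    have g2 : ¬ (r : ℤ) ∣ p + q := fun g => g1 (by
      have := dvd_sub g hd
      rwa [add_sub_cancel_left] at this)
    have hm : m = 0 := by
      refine key hr (A := p) (B := p + q) (C := 1) (D := q) (m := n) (n := 0)
        (s := -(m + n)) hp0 hpq0 one_ne_zero hq0.ne' ?_ hd g2
        (fun g => dvd_one_absurd hr g) g1
      rw [← hH]
    subst hm
    rw [zpow_zero, one_mul] at h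
    refine ⟨rfl, root_rat ?_ ?_ h⟩
    · intro g; apply h0; linear_combination g
    · intro g; apply h3; linear_combination g

/-- the numbers `d = 1 / t` -/
lemma indep3_inv {t : ℤ} (t0 : t ≠ 0) (t1 : t ≠ 1) (t2 : t ≠ 2) (tm1 : t ≠ -1) (t3 : t ≠ 3)
    (tm2 : t ≠ -2) (t4 : t ≠ 4) {l m n : ℤ}
    (h : (1 / (t : ℚ)) ^ l * (1 / (t : ℚ) - 1) ^ m * (2 * (1 / (t : ℚ)) - 1) ^ n = 1) :
    l = 0 ∧ m = 0 ∧ n = 0 := by
  have htQ : (t : ℚ) ≠ 0 := by exact_mod_cast t0
  have e1 : 1 / (t : ℚ) - 1 = ((1 - t : ℤ) : ℚ) / t := by push_cast; field_simp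
  have e2 : 2 * (1 / (t : ℚ)) - 1 = ((2 - t : ℤ) : ℚ) / t := by push_cast; field_simp
  have hH : ((1 - t : ℤ) : ℚ) ^ m * ((2 - t : ℤ) : ℚ) ^ n * ((1 : ℤ) : ℚ) ^ (0 : ℤ) *
      (t : ℚ) ^ (-(l + m + n)) = 1 := by
    rw [e1, e2, div_zpow, div_zpow, div_zpow, one_zpow] at h
    rw [zpow_zero, mul_one, zpow_neg, zpow_add₀ htQ, zpow_add₀ htQ]
    rw [← h]
    have a1 := zpow_ne_zero m htQ
    have a2 := zpow_ne_zero n htQ
    have a3 := zpow_ne_zero l htQ
    field_simp
  have d1 : 1 - t ≠ 0 := by omega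
  have d2 : 2 - t ≠ 0 := by omega
  -- `m = 0`
  obtain ⟨r, hr, hd⟩ := exists_prime (z := 1 - t) (by omega)
  have g1 : ¬ (r : ℤ) ∣ t := fun g => dvd_one_absurd hr (by
    have := dvd_add hd g
    rwa [sub_add_cancel] at this)
  have g2 : ¬ (r : ℤ) ∣ 2 - t := fun g => dvd_one_absurd hr (by
    have := dvd_sub g hd
    have e : (2 - t) - (1 - t) = 1 := by ring
    rwa [e] at this)
  have hm : m = 0 := key hr (A := 1 - t) (B := 2 - t) (C := 1) (D := t) (m := n) (n := 0)
    (s := -(l + m + n)) d1 d2 one_ne_zero t0 hH hd g2 (fun g => dvd_one_absurd hr g) g1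
  subst hm
  rw [zpow_zero, one_mul, add_zero] at hH
  have ht' : (t : ℚ) ≠ 1 := by exact_mod_cast t1
  have ht'' : (t : ℚ) ≠ -1 := by exact_mod_cast tm1
  rcases Nat.eq_two_pow_or_exists_odd_prime_and_dvd (2 - t).natAbs with ⟨j, hj⟩ | ⟨r, hr, hd, ho⟩
  · rcases Nat.eq_two_pow_or_exists_odd_prime_and_dvd t.natAbs with ⟨i, hi⟩ | ⟨r, hr, hd, ho⟩
    · exfalso
      rcases i with _ | i
      · rw [pow_zero] at hi
        omega
      rcases j with _ | j
      · rw [pow_zero] at hj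
        rw [pow_succ] at hi
        omega
      rcases i with _ | i
      · rw [zero_add, pow_one] at hi
        omega
      rcases j with _ | j
      · rw [zero_add, pow_one] at hj
        omega
      rw [pow_succ, pow_succ] at hi hj
      omega
    · have hd' : (r : ℤ) ∣ t := Int.natCast_dvd.mpr hd
      have g3 : ¬ (r : ℤ) ∣ 2 - t := fun g => by
        have h5 : (r : ℤ) ∣ 2 := by
          have := dvd_add g hd'
          rwa [sub_add_cancel] at this
        have h6 : r ∣ 2 := by exact_mod_cast h5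
        have h7 := (Nat.prime_dvd_prime_iff_eq hr Nat.prime_two).mp h6
        rw [h7] at ho
        exact absurd ho (by decide)
      have hs : -(l + n) = 0 := by
        refine key hr (A := t) (B := 2 - t) (C := 1) (D := 1) (m := n) (n := 0) (s := 0)
          t0 d2 one_ne_zero one_ne_zero ?_ hd' g3 (fun g => dvd_one_absurd hr g)
          (fun g => dvd_one_absurd hr g)
        rw [← hH]
        simp [mul_comm]
      rw [hs, zpow_zero, zpow_zero, mul_one, mul_one] at hH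
      have hn : n = 0 := by
        refine root_rat ?_ ?_ hH
        · intro g
          apply t1
          have : ((2 - t : ℤ) : ℚ) = ((1 : ℤ) : ℚ) := by rw [g]; norm_num
          have := Int.cast_injective this
          omega
        · intro g
          apply t3
          have : ((2 - t : ℤ) : ℚ) = ((-1 : ℤ) : ℚ) := by rw [g]; norm_num
          have := Int.cast_injective this
          omega
      exact ⟨by omega, rfl, hn⟩
  · have hd' : (r : ℤ) ∣ 2 - t := Int.natCast_dvd.mpr hd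
    have g3 : ¬ (r : ℤ) ∣ t := fun g => by
      have h5 : (r : ℤ) ∣ 2 := by
        have := dvd_add hd' g
        rwa [sub_add_cancel] at this
      have h6 : r ∣ 2 := by exact_mod_cast h5
      have h7 := (Nat.prime_dvd_prime_iff_eq hr Nat.prime_two).mp h6
      rw [h7] at ho
      exact absurd ho (by decide)
    have hn : n = 0 := by
      refine key hr (A := 2 - t) (B := t) (C := 1) (D := 1) (m := -(l + n)) (n := 0) (s := 0)
        d2 t0 one_ne_zero one_ne_zero ?_ hd' g3 (fun g => dvd_one_absurd hr g)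
        (fun g => dvd_one_absurd hr g)
      rw [← hH]
      simp
    subst hn
    rw [zpow_zero, zpow_zero, one_mul, one_mul, add_zero] at hH
    have hl := root_rat ht' ht'' hH
    exact ⟨by omega, rfl, rfl⟩

/-- for rational `d` the numbers `d`, `d - 1`, `2d - 1` are independent with eight exceptions -/
theorem indep3_rat {d : ℚ} (h0 : d ≠ 0) (h1 : d ≠ 1) (h12 : d ≠ 1 / 2)
    (h : d ≠ 2 ∧ d ≠ -1 ∧ d ≠ 1 / 3 ∧ d ≠ 2 / 3 ∧ d ≠ 3 / 2 ∧ d ≠ -1 / 2 ∧ d ≠ 1 / 4 ∧ d ≠ 3 / 4) :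
    Indep3 d (d - 1) (2 * d - 1) := by
  obtain ⟨a1, a2, a3, a4, a5, a6, a7, a8⟩ := h
  intro l m n hd
  obtain ⟨p, q, hq0, hco, hc⟩ : ∃ p q : ℤ, 0 < q ∧ IsCoprime p q ∧ d = p / q :=
    ⟨d.num, d.den, by exact_mod_cast d.pos, by
      rw [Int.isCoprime_iff_gcd_eq_one]; exact d.reduced, (Rat.num_div_den d).symm⟩
  have hqQ : (q : ℚ) ≠ 0 := by exact_mod_cast hq0.ne'
  have npr : ∀ r : ℕ, r.Prime → ¬ ((r : ℤ) ∣ p ∧ (r : ℤ) ∣ q) := by
    rintro r hr ⟨g1, g2⟩
    obtain ⟨u, v, huv⟩ := hco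
    apply dvd_one_absurd hr
    rw [← huv]
    exact dvd_add (dvd_mul_of_dvd_right g1 u) (dvd_mul_of_dvd_right g2 v)
  by_cases hp : p.natAbs = 1
  · -- `d = 1 / t`
    have e1 : p = 1 ∨ p = -1 := Int.natAbs_eq_natAbs_iff.mp (by rw [hp]; rfl)
    obtain ⟨t, ht0, ht⟩ : ∃ t : ℤ, t ≠ 0 ∧ d = 1 / t := by
      rcases e1 with e1 | e1
      · exact ⟨q, hq0.ne', by rw [hc, e1]; norm_num⟩
      · refine ⟨-q, by omega, ?_⟩
        rw [hc, e1]; push_cast; field_simp
    rw [ht] at hd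
    refine indep3_inv ht0 ?_ ?_ ?_ ?_ ?_ ?_ hd
    · rintro rfl; apply h1; rw [ht]; norm_num
    · rintro rfl; apply h12; rw [ht]; norm_num
    · rintro rfl; apply a2; rw [ht]; norm_num
    · rintro rfl; apply a3; rw [ht]; norm_num
    · rintro rfl; apply a6; rw [ht]; norm_num
    · rintro rfl; apply a7; rw [ht]; norm_num
  · by_cases hpq : (p - q).natAbs = 1
    · -- `1 - d = 1 / t`
      have e1 : p - q = 1 ∨ p - q = -1 := Int.natAbs_eq_natAbs_iff.mp (by rw [hpq]; rfl)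
      obtain ⟨t, ht0, ht⟩ : ∃ t : ℤ, t ≠ 0 ∧ 1 - d = 1 / t := by
        rcases e1 with e1 | e1
        · refine ⟨-q, by omega, ?_⟩
          have : p = q + 1 := by omega
          rw [hc, this]; push_cast; field_simp; ring
        · refine ⟨q, hq0.ne', ?_⟩
          have : p = q - 1 := by omega
          rw [hc, this]; push_cast; field_simp; ring
      have hd' : d = 1 - 1 / t := by rw [← ht]; ring
      have key2 : (1 / (t : ℚ)) ^ (2 * m) * (1 / (t : ℚ) - 1) ^ (2 * l) *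
          (2 * (1 / (t : ℚ)) - 1) ^ (2 * n) = 1 := by
        have s1 : ∀ (x : ℚ) (j : ℤ), x ^ (2 * j) = (x ^ 2) ^ j := by
          intro x j
          rw [zpow_mul]; norm_cast
        rw [s1, s1, s1]
        have t1 : (1 / (t : ℚ)) ^ 2 = (d - 1) ^ 2 := by rw [← ht]; ring
        have t2 : (1 / (t : ℚ) - 1) ^ 2 = d ^ 2 := by rw [← ht]; ring
        have t3 : (2 * (1 / (t : ℚ)) - 1) ^ 2 = (2 * d - 1) ^ 2 := by rw [← ht]; ring
        rw [t1, t2, t3, ← s1, ← s1, ← s1]
        have : (d - 1) ^ (2 * m) * d ^ (2 * l) * (2 * d - 1) ^ (2 * n) =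
            (d ^ l * (d - 1) ^ m * (2 * d - 1) ^ n) ^ (2 : ℤ) := by
          rw [mul_zpow, mul_zpow, ← zpow_mul, ← zpow_mul, ← zpow_mul, mul_comm m 2, mul_comm l 2,
            mul_comm n 2]
          ring
        rw [this, hd, one_zpow]
      have := indep3_inv ht0 ?_ ?_ ?_ ?_ ?_ ?_ key2
      · omega
      · rintro rfl; apply h0; rw [hd']; norm_num
      · rintro rfl; apply h12; rw [hd']; norm_num
      · rintro rfl; apply a1; rw [hd']; norm_num
      · rintro rfl; apply a4; rw [hd']; norm_num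
      · rintro rfl; apply a5; rw [hd']; norm_num
      · rintro rfl; apply a8; rw [hd']; norm_num
    · -- both have prime divisors
      have hp0 : p ≠ 0 := by
        rintro rfl
        apply h0; rw [hc]; simp
      have hpq0 : p - q ≠ 0 := by
        intro h5
        apply h1
        rw [hc, div_eq_iff hqQ]
        have : (p : ℚ) - q = 0 := by exact_mod_cast h5
        linear_combination this
      have h2p0 : 2 * p - q ≠ 0 := by
        intro h5
        apply h12
        rw [hc, div_eq_iff hqQ]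
        have : 2 * (p : ℚ) - q = 0 := by exact_mod_cast h5
        linear_combination this / 2
      have hd1 : d - 1 = (p - q : ℤ) / q := by
        rw [hc]; push_cast; field_simp
      have hd2 : 2 * d - 1 = (2 * p - q : ℤ) / q := by
        rw [hc]; push_cast; field_simp
      have hH : (p : ℚ) ^ l * ((p - q : ℤ) : ℚ) ^ m * ((2 * p - q : ℤ) : ℚ) ^ n *
          (q : ℚ) ^ (-(l + m + n)) = 1 := by
        rw [hd1, hd2, hc, div_zpow, div_zpow, div_zpow] at hd
        rw [zpow_neg, zpow_add₀ hqQ, zpow_add₀ hqQ]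
        rw [← hd]
        have a1 := zpow_ne_zero m hqQ
        have a2 := zpow_ne_zero n hqQ
        have a3 := zpow_ne_zero l hqQ
        field_simp
      have hl : l = 0 := by
        obtain ⟨r, hr, hdv⟩ := exists_prime hp
        have g1 : ¬ (r : ℤ) ∣ q := fun g => npr r hr ⟨hdv, g⟩
        have g2 : ¬ (r : ℤ) ∣ p - q := fun g => g1 (by
          have := dvd_sub hdv g
          rwa [sub_sub_cancel] at this)
        have g3 : ¬ (r : ℤ) ∣ 2 * p - q := fun g => g1 (by
          have := dvd_sub (dvd_mul_of_dvd_right hdv 2) g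
          rwa [sub_sub_cancel] at this)
        exact key hr (A := p) (B := p - q) (C := 2 * p - q) (D := q) hp0 hpq0 h2p0 hq0.ne' hH
          hdv g2 g3 g1
      have hm : m = 0 := by
        obtain ⟨r, hr, hdv⟩ := exists_prime hpq
        have g1 : ¬ (r : ℤ) ∣ q := fun g => npr r hr ⟨by
          have := dvd_add hdv g
          rwa [sub_add_cancel] at this, g⟩
        have g2 : ¬ (r : ℤ) ∣ p := fun g => g1 (by
          have := dvd_sub g hdv
          rwa [sub_sub_cancel] at this)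
        have g3 : ¬ (r : ℤ) ∣ 2 * p - q := fun g => g2 (by
          have := dvd_sub g hdv
          have e : (2 * p - q) - (p - q) = p := by ring
          rwa [e] at this)
        refine key hr (A := p - q) (B := p) (C := 2 * p - q) (D := q) (m := l) (n := n)
          (s := -(l + m + n)) hpq0 hp0 h2p0 hq0.ne' ?_ hdv g2 g3 g1
        rw [← hH]; ring
      subst hl hm
      rw [zpow_zero, zpow_zero, one_mul, one_mul] at hd
      refine ⟨rfl, rfl, root_rat ?_ ?_ hd⟩
      · intro g; apply h1; linear_combination g / 2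
      · intro g; apply h0; linear_combination g / 2

/-- for rational `d` the numbers `d`, `d - 1`, `d² - d + 1` are independent with three
exceptions -/
theorem indep9_rat {d : ℚ} (h0 : d ≠ 0) (h1 : d ≠ 1) (h2 : d ≠ 2) (h3 : d ≠ -1)
    (h4 : 2 * d ≠ 1) : Indep3 d (d - 1) (d ^ 2 - d + 1) := by
  intro l m n hd
  obtain ⟨p, q, hq0, hco, hc⟩ : ∃ p q : ℤ, 0 < q ∧ IsCoprime p q ∧ d = p / q :=
    ⟨d.num, d.den, by exact_mod_cast d.pos, by
      rw [Int.isCoprime_iff_gcd_eq_one]; exact d.reduced, (Rat.num_div_den d).symm⟩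
  have hqQ : (q : ℚ) ≠ 0 := by exact_mod_cast hq0.ne'
  have npr : ∀ r : ℕ, r.Prime → ¬ ((r : ℤ) ∣ p ∧ (r : ℤ) ∣ q) := by
    rintro r hr ⟨g1, g2⟩
    obtain ⟨u, v, huv⟩ := hco
    apply dvd_one_absurd hr
    rw [← huv]
    exact dvd_add (dvd_mul_of_dvd_right g1 u) (dvd_mul_of_dvd_right g2 v)
  have hp0 : p ≠ 0 := by
    rintro rfl
    apply h0; rw [hc]; simp
  have hpq0 : p - q ≠ 0 := by
    intro h5
    apply h1
    rw [hc, div_eq_iff hqQ]
    have : (p : ℚ) - q = 0 := by exact_mod_cast h5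
    linear_combination this
  have hd1 : d - 1 = (p - q : ℤ) / q := by
    rw [hc]; push_cast; field_simp
  have hd2 : d ^ 2 - d + 1 = (p ^ 2 - p * q + q ^ 2 : ℤ) / (q * q) := by
    rw [hc]; push_cast; field_simp
  have hC : 1 < p ^ 2 - p * q + q ^ 2 := by
    have h5 : 0 < (p - q) ^ 2 := by positivity
    have h6 : 0 < p ^ 2 := by positivity
    by_contra h7
    push_neg at h7
    -- `(2p - q)² + 3q² ≤ 4`
    have h8 : (2 * p - q) ^ 2 + 3 * q ^ 2 ≤ 4 := by nlinarith
    have h9 : q = 1 := by nlinarith [sq_nonneg (2 * p - q)]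
    subst h9
    have h10 : (2 * p - 1) ^ 2 ≤ 1 := by linarith
    have h11 : p ≤ 1 := by nlinarith
    have h12 : 0 ≤ p := by nlinarith
    have : p = 0 ∨ p = 1 := by omega
    rcases this with h | h
    · exact hp0 h
    · exact hpq0 (by omega)
  have hH : ((p ^ 2 - p * q + q ^ 2 : ℤ) : ℚ) ^ n * (p : ℚ) ^ l * ((p - q : ℤ) : ℚ) ^ m *
      (q : ℚ) ^ (-(l + m + 2 * n)) = 1 := by
    rw [hd1, hd2, hc, div_zpow, div_zpow, div_zpow, mul_zpow] at hd
    rw [zpow_neg, zpow_add₀ hqQ, zpow_add₀ hqQ, two_mul, zpow_add₀ hqQ]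
    rw [← hd]
    have a1 := zpow_ne_zero m hqQ
    have a2 := zpow_ne_zero n hqQ
    have a3 := zpow_ne_zero l hqQ
    field_simp
  have hn : n = 0 := by
    obtain ⟨r, hr, hdv⟩ := exists_prime (z := p ^ 2 - p * q + q ^ 2) (by omega)
    have hri : Prime (r : ℤ) := Nat.prime_iff_prime_int.mp hr
    have g1 : ¬ (r : ℤ) ∣ q := fun g => npr r hr ⟨by
      have h5 : (r : ℤ) ∣ p ^ 2 := by
        have e : p ^ 2 = (p ^ 2 - p * q + q ^ 2) + q * (p - q) := by ring
        rw [e]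
        exact dvd_add hdv (dvd_mul_of_dvd_left g _)
      exact hri.dvd_of_dvd_pow h5, g⟩
    have g2 : ¬ (r : ℤ) ∣ p := fun g => g1 (by
      have h5 : (r : ℤ) ∣ q ^ 2 := by
        have e : q ^ 2 = (p ^ 2 - p * q + q ^ 2) + p * (q - p) := by ring
        rw [e]
        exact dvd_add hdv (dvd_mul_of_dvd_left g _)
      exact hri.dvd_of_dvd_pow h5)
    have g3 : ¬ (r : ℤ) ∣ p - q := fun g => by
      have h5 : (r : ℤ) ∣ p * q := by
        have e : p * q = (p ^ 2 - p * q + q ^ 2) - (p - q) * (p - q) := by ring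
        rw [e]
        exact dvd_sub hdv (dvd_mul_of_dvd_left g _)
      rcases hri.dvd_or_dvd h5 with h6 | h6
      · exact g2 h6
      · exact g1 h6
    exact key hr (A := p ^ 2 - p * q + q ^ 2) (B := p) (C := p - q) (D := q) (by omega) hp0 hpq0
      hq0.ne' hH hdv g2 g3 g1
  subst hn
  rw [zpow_zero, mul_one] at hd
  have h := indep_rat (c := d - 1) (by intro h; apply h1; linear_combination h)
    (by intro h; apply h0; linear_combination h) (by intro h; apply h2; linear_combination h)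
    (by intro h; apply h3; linear_combination h)
    (by intro h; apply h4; linear_combination 2 * h)
  rw [sub_add_cancel] at h
  obtain ⟨a, b⟩ := h m l (by rw [mul_comm]; exact hd)
  exact ⟨b, a, rfl⟩

theorem overQ4 : (∀ c : ℚ, c ≠ 0 → c ≠ -1 → c = 1 ∨ c = -2 ∨ 2 * c = -1 ∨ Indep c (c + 1)) ∧
    (∀ d : ℚ, d ≠ 0 → d ≠ 1 → d = 2 ∨ d = -1 ∨ 2 * d = 1 ∨ Indep d (d - 1)) ∧
    (∀ d : ℚ, d ≠ 0 → d ≠ 1 → 2 * d ≠ 1 → d = 2 ∨ d = -1 ∨ 3 * d = 1 ∨ 3 * d = 2 ∨
      2 * d = 3 ∨ 2 * d = -1 ∨ 4 * d = 1 ∨ 4 * d = 3 ∨ Indep3 d (d - 1) (2 * d - 1)) ∧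
    ∀ d : ℚ, d ≠ 0 → d ≠ 1 → d = 2 ∨ d = -1 ∨ 2 * d = 1 ∨ Indep3 d (d - 1) (d ^ 2 - d + 1) := by
  refine ⟨?_, ?_, ?_, ?_⟩
  · intro c h0 h1
    by_cases h2 : c = 1
    · exact Or.inl h2
    by_cases h3 : c = -2
    · exact Or.inr (Or.inl h3)
    by_cases h4 : 2 * c = -1
    · exact Or.inr (Or.inr (Or.inl h4))
    refine Or.inr (Or.inr (Or.inr (indep_rat h0 h1 h2 h3 ?_)))
    rintro rfl
    norm_num at h4
  · intro d h0 h1
    by_cases h2 : d = 2
    · exact Or.inl h2
    by_cases h3 : d = -1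
    · exact Or.inr (Or.inl h3)
    by_cases h4 : 2 * d = 1
    · exact Or.inr (Or.inr (Or.inl h4))
    refine Or.inr (Or.inr (Or.inr ?_))
    have h := indep_rat (c := d - 1) (by intro h; apply h1; linear_combination h)
      (by intro h; apply h0; linear_combination h) (by intro h; apply h2; linear_combination h)
      (by intro h; apply h3; linear_combination h)
      (by intro h; apply h4; linear_combination 2 * h)
    rw [sub_add_cancel] at h
    intro m n hmn
    obtain ⟨a, b⟩ := h n m (by rw [mul_comm]; exact hmn)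
    exact ⟨b, a⟩
  · intro d h0 h1 h12
    by_cases c1 : d = 2
    · exact Or.inl c1
    by_cases c2 : d = -1
    · exact Or.inr (Or.inl c2)
    by_cases c3 : 3 * d = 1
    · exact Or.inr (Or.inr (Or.inl c3))
    by_cases c4 : 3 * d = 2
    · exact Or.inr (Or.inr (Or.inr (Or.inl c4)))
    by_cases c5 : 2 * d = 3
    · exact Or.inr (Or.inr (Or.inr (Or.inr (Or.inl c5))))
    by_cases c6 : 2 * d = -1
    · exact Or.inr (Or.inr (Or.inr (Or.inr (Or.inr (Or.inl c6)))))
    by_cases c7 : 4 * d = 1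
    · exact Or.inr (Or.inr (Or.inr (Or.inr (Or.inr (Or.inr (Or.inl c7))))))
    by_cases c8 : 4 * d = 3
    · exact Or.inr (Or.inr (Or.inr (Or.inr (Or.inr (Or.inr (Or.inr (Or.inl c8)))))))
    refine Or.inr (Or.inr (Or.inr (Or.inr (Or.inr (Or.inr (Or.inr (Or.inr ?_)))))))
    refine indep3_rat h0 h1 ?_ ⟨c1, c2, ?_, ?_, ?_, ?_, ?_, ?_⟩
    · rintro rfl; norm_num at h12
    · rintro rfl; norm_num at c3
    · rintro rfl; norm_num at c4
    · rintro rfl; norm_num at c5
    · rintro rfl; norm_num at c6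
    · rintro rfl; norm_num at c7
    · rintro rfl; norm_num at c8
  · intro d h0 h1
    by_cases h2 : d = 2
    · exact Or.inl h2
    by_cases h3 : d = -1
    · exact Or.inr (Or.inl h3)
    by_cases h4 : 2 * d = 1
    · exact Or.inr (Or.inr (Or.inl h4))
    exact Or.inr (Or.inr (Or.inr (indep9_rat h0 h1 h2 h3 h4)))

end Pool.Agent.FK4
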