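import Pool.Agent.Lib_helper2.K4N.DefsR

set_option autoImplicit false

/-!
# The clauses of the theorem
-/

open scoped TensorProduct WithZero

namespace Pool.Agent.FK4

open Pool.Agent.MK4 WeierstrassCurve.Affine

variable {k : Type*} [Field k] [DecidableEq k] {W : WeierstrassCurve.Affine k} {F : Type*}
  [Field F] [Algebra k F]

/-- `l` is a line through the point `S` of the curve. -/
def Thr (X Y : F) : W.Point → F → Prop
  | 0, l => ∃ a b : k, l = algebraMap k F a + algebraMap k F b * X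
  | .some p q _, l => ∃ b c : k,
      l = algebraMap k F b * (X - algebraMap k F p) + algebraMap k F c * (Y - algebraMap k F q)

/-- `f` is a quotient `l / m`, where `l`, `m` are lines through a point of the curve, and `l`, `m`,
`m - l` are supported on `H`. -/
def LineS (H : AddSubgroup W.Point) (X Y f : F) : Prop :=
  ∃ (S : W.Point) (l m : F), Thr X Y S l ∧ Thr X Y S m ∧ Supp H X Y l ∧ Supp H X Y m ∧
    Supp H X Y (m - l) ∧ f = l / m

/-- The unit equation on the functions supported on `H`: only the constants and the quotients of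
lines. -/
def UnitEqS (H : AddSubgroup W.Point) (X Y : F) : Prop :=
  ∀ f : F, (Supp H X Y f ∧ Supp H X Y (1 - f)) ↔
    (∃ c : k, c ≠ 0 ∧ c ≠ 1 ∧ f = algebraMap k F c) ∨ LineS H X Y f

/-- The span of the `{f}₂ ⊗ u`, where `f` is constant or a quotient of lines as in `LineS`, and `u`
is arbitrary. -/
noncomputable def SpL (H : AddSubgroup W.Point) (X Y : F) : Submodule ℚ (HK F) :=
  Submodule.span ℚ {z | ∃ f u : F, ((∃ c : k, f = algebraMap k F c) ∨ LineS H X Y f) ∧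
    z = hk (sy f) (lg u)}

/-- The abscissa of a point. -/
def absc : W.Point → k
  | 0 => 0
  | .some x _ _ => x

/-- The number `γ(a)` of a point `a = (x, y)` of a finite group `H` of points: the product of
`(2y + a₁x + a₃)²` and of the `x - x(c)`, `c` in `H` different from `0`, `a` and `-a`.  (If
`2y + a₁x + a₃ = 0` this factor is replaced by `3x² + 2a₂x + a₄ - a₁y`.) -/
noncomputable def gam (H : AddSubgroup W.Point) [Fintype H] : W.Point → k
  | 0 => 1
  | .some x y h => (if 2 * y + W.a₁ * x + W.a₃ = 0 then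
        3 * x ^ 2 + 2 * W.a₂ * x + W.a₄ - W.a₁ * y else (2 * y + W.a₁ * x + W.a₃) ^ 2) *
      ∏ c : H, if (c : W.Point) = 0 ∨ (c : W.Point) = .some x y h ∨
        (c : W.Point) = -.some x y h then 1 else x - absc (c : W.Point)

/-- The numbers `γ(a) = γ(-a)`, `a ≠ 0` in `H`, are multiplicatively independent, for exponents of
sum zero. -/
def SiegelIndep (H : AddSubgroup W.Point) [Fintype H] : Prop :=
  ∀ e : H → ℤ, (∀ a, e (-a) = e a) → e 0 = 0 → ∑ a, e a = 0 →
    ∏ a : H, gam H (a : W.Point) ^ e a = 1 → ∀ a, e a = 0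

/-- the functions `b / x(z + 2jP)` for a point `P` of order five -/
def v5 (b x y : F) : Fin 5 → F :=
  ![b / x, y * (x - b) / (x * (y - b * x)), -y / (x - b), x ^ 2 / y, (y - b * x) / y]

/-- the class `∑ {v_j} ⊗ v_{j+m}` -/
noncomputable def xi5 (b x y : F) (m : Fin 5) : HK F :=
  ∑ j, hk (sy (v5 b x y j)) (lg (v5 b x y (j + m)))

/-- `a`, `b` and `c` are multiplicatively independent. -/
def Indep3 {k : Type*} [Field k] (a b c : k) : Prop :=
  ∀ l m n : ℤ, a ^ l * b ^ m * c ^ n = 1 → l = 0 ∧ m = 0 ∧ n = 0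

/-- `a`, `b`, `c` and `d` are multiplicatively independent. -/
def Indep4 {k : Type*} [Field k] (a b c d : k) : Prop :=
  ∀ l m n o : ℤ, a ^ l * b ^ m * c ^ n * d ^ o = 1 → l = 0 ∧ m = 0 ∧ n = 0 ∧ o = 0

/-- The closed elements are the multiples of one class up to the constants; this class has no
residues, and its regulator is not zero. -/
def Line (P : W.Point) (X Y : F) : Prop :=
  ∃ ξ : HK F, IsCls (AddSubgroup.zmultiples P) X Y ξ ∧
    ClosedIn (AddSubgroup.zmultiples P) X Y (Submodule.span ℚ {ξ}) ∧ RegNonZero k X Y ξ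

/-- Points of order four. -/
def Four (P : W.Point) (X Y : F) : Prop :=
  ∃ (b : k) (x y : F), Tate P X Y b 0 x y ∧ UnitEqS (AddSubgroup.zmultiples P) X Y ∧
    (¬ RootOfUnity b → ClosedIn (AddSubgroup.zmultiples P) X Y ⊥) ∧
    (RootOfUnity b → ∃ ξ : HK F, ξ = hk (sy (x / algebraMap k F b)) (lg y) -
        hk (sy (y / x ^ 2)) (lg x) ∧
      IsCls (AddSubgroup.zmultiples P) X Y ξ ∧
      ClosedIn (AddSubgroup.zmultiples P) X Y (Submodule.span ℚ {ξ}) ∧ RegNonZero k X Y ξ)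

/-- Points of order five. -/
def Five (P : W.Point) (X Y : F) : Prop :=
  ∃ (b : k) (x y : F), Tate P X Y b b x y ∧
    (b ≠ 1 → b ≠ -1 → UnitEqS (AddSubgroup.zmultiples P) X Y) ∧
    (¬ RootOfUnity b → ClosedIn (AddSubgroup.zmultiples P) X Y ⊥) ∧
    (RootOfUnity b → ∃ ξ ξ' : HK F, ξ = xi5 (algebraMap k F b) x y 1 ∧
      ξ' = xi5 (algebraMap k F b) x y 2 ∧
      IsCls (AddSubgroup.zmultiples P) X Y ξ ∧ IsCls (AddSubgroup.zmultiples P) X Y ξ' ∧
      ClosedIn (AddSubgroup.zmultiples P) X Y (Submodule.span ℚ {ξ, ξ'}) ∧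
      (b = 1 ∨ b = -1 → ClosedIn (AddSubgroup.zmultiples P) X Y (Submodule.span ℚ {ξ})) ∧
      RegNonZero k X Y ξ)

/-- Points of order six. -/
def Six (P : W.Point) (X Y : F) : Prop :=
  ∃ (c : k) (x y : F), Tate P X Y (c + c ^ 2) c x y ∧
    (Indep c (c + 1) → 3 * c ≠ 1 → 3 * c ≠ -1 → 5 * c ≠ -1 →
      UnitEqS (AddSubgroup.zmultiples P) X Y ∧ ClosedIn (AddSubgroup.zmultiples P) X Y ⊥) ∧
    (c = 1 ∨ c = -2 ∨ 2 * c = -1 ∨ 3 * c = 1 ∨ 3 * c = -1 ∨ 5 * c = -1 → Line P X Y)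

/-- Points of order seven. -/
def Seven (P : W.Point) (X Y : F) : Prop :=
  ∃ (d : k) (x y : F), Tate P X Y (d ^ 3 - d ^ 2) (d ^ 2 - d) x y ∧
    (Indep d (d - 1) →
      UnitEqS (AddSubgroup.zmultiples P) X Y ∧ ClosedIn (AddSubgroup.zmultiples P) X Y ⊥) ∧
    (d = 2 ∨ d = -1 ∨ 2 * d = 1 → Line P X Y)

/-- `f` is one of `u`, `1 - u`, `1/u`, `1 - 1/u`, `1/(1 - u)`, `u/(u - 1)`. -/
def S3 (u f : F) : Prop :=
  f = u ∨ f = 1 - u ∨ f = 1 / u ∨ f = 1 - 1 / u ∨ f = 1 / (1 - u) ∨ f = u / (u - 1)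

/-- The unit equation on the functions supported on `H`, for a group of order eight: the constants,
the quotients of lines, and the functions `g(x)`, `g(b y / x²)`, `g(z) = z (z - c) / (z - b)²`,
up to the substitutions `f ↦ 1 - f`, `f ↦ 1 / f`. -/
def UnitEq8 (H : AddSubgroup W.Point) (X Y : F) (b c : k) (x y : F) : Prop :=
  ∀ f : F, (Supp H X Y f ∧ Supp H X Y (1 - f)) ↔
    (∃ a : k, a ≠ 0 ∧ a ≠ 1 ∧ f = algebraMap k F a) ∨ LineS H X Y f ∨
      ∃ z : F, (z = x ∨ z = algebraMap k F b * y / x ^ 2) ∧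
        S3 (z * (z - algebraMap k F c) / (z - algebraMap k F b) ^ 2) f

/-- Points of order eight. -/
def Eight (P : W.Point) (X Y : F) : Prop :=
  ∃ (d : k) (x y : F), d ≠ 0 ∧
    Tate P X Y ((2 * d - 1) * (d - 1)) ((2 * d - 1) * (d - 1) / d) x y ∧
    (Indep3 d (d - 1) (2 * d - 1) →
      UnitEq8 (AddSubgroup.zmultiples P) X Y ((2 * d - 1) * (d - 1))
        ((2 * d - 1) * (d - 1) / d) x y ∧ ClosedIn (AddSubgroup.zmultiples P) X Y ⊥) ∧
    (d = 2 ∨ d = -1 ∨ 3 * d = 1 ∨ 3 * d = 2 ∨ 2 * d = 3 ∨ 2 * d = -1 ∨ 4 * d = 1 ∨ 4 * d = 3 →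
      Line P X Y)

/-- Points of order nine. -/
def Nine (P : W.Point) (X Y : F) : Prop :=
  ∃ (d : k) (x y : F), Tate P X Y (d ^ 2 * (d - 1) * (d ^ 2 - d + 1)) (d ^ 2 * (d - 1)) x y ∧
    (Indep3 d (d - 1) (d ^ 2 - d + 1) → d ^ 3 - 3 * d ^ 2 + 1 ≠ 0 →
      d ^ 3 + 3 * d ^ 2 - 6 * d + 1 ≠ 0 →
      UnitEqS (AddSubgroup.zmultiples P) X Y ∧ ClosedIn (AddSubgroup.zmultiples P) X Y ⊥) ∧
    (d = 2 ∨ d = -1 ∨ 2 * d = 1 → Line P X Y)

/-- In Tate's normal form with respect to `P = (0,0)`: the coordinates of `(x, y) + P`. -/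
def addP (b : F) (z : F × F) : F × F := (b * z.2 / z.1 ^ 2, b ^ 2 * (z.1 ^ 2 - z.2) / z.1 ^ 3)

/-- The unit equation on the functions supported on `H`, for a group of order ten: the constants,
the quotients of lines, and the functions `(z - b)(z - c)/(z (z - e))`, where `z` is the abscissa of
`(x, y) + jP`, up to the substitutions `f ↦ 1 - f`, `f ↦ 1 / f`. -/
def UnitEq10 (H : AddSubgroup W.Point) (X Y : F) (b c e : k) (x y : F) : Prop :=
  ∀ f : F, (Supp H X Y f ∧ Supp H X Y (1 - f)) ↔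
    (∃ a : k, a ≠ 0 ∧ a ≠ 1 ∧ f = algebraMap k F a) ∨ LineS H X Y f ∨
      ∃ (j : ℕ) (z : F), z = ((addP (algebraMap k F b))^[j] (x, y)).1 ∧
        S3 ((z - algebraMap k F b) * (z - algebraMap k F c) / (z * (z - algebraMap k F e))) f

end Pool.Agent.FK4
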