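import Pool.Agent.Lib_helper2.K4.DefsC

set_option autoImplicit false

/-!
# Elements built on the functions supported on the multiples of a point of finite order

`W` is a Weierstrass curve over `k`, `H` a group of points of `W` over `k`, and `(X, Y)` a generic
point of `W` with coordinates in a field `F` over `k`.
-/

open scoped TensorProduct WithZero

namespace Pool.Agent.FK4

open Pool.Agent.MK4 WeierstrassCurve.Affine

variable {k : Type*} [Field k] [DecidableEq k] {W : WeierstrassCurve.Affine k} {F : Type*}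
  [Field F] [Algebra k F]

/-- `(X, Y)` is a generic point of `W`. -/
structure Generic (W : WeierstrassCurve.Affine k) (X Y : F) : Prop where
  eq : Y ^ 2 + algebraMap k F W.a₁ * X * Y + algebraMap k F W.a₃ * Y =
    X ^ 3 + algebraMap k F W.a₂ * X ^ 2 + algebraMap k F W.a₄ * X + algebraMap k F W.a₆
  tr : Transcendental k X

/-- The ring of the functions regular outside `H`: it is generated by `X`, `Y` and the
`1/(X - x(Q))`, `Q` in `H`. -/
def Reg (H : AddSubgroup W.Point) (X Y : F) : Subalgebra k F :=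
  Algebra.adjoin k ({X, Y} ∪ {z | ∃ (a b : k) (h : W.Nonsingular a b),
    Point.some a b h ∈ H ∧ z = (X - algebraMap k F a)⁻¹})

/-- The functions supported on `H`: the units of this ring. -/
def Supp (H : AddSubgroup W.Point) (X Y f : F) : Prop :=
  f ≠ 0 ∧ f ∈ Reg H X Y ∧ f⁻¹ ∈ Reg H X Y

/-- The span of the `{f}₂ ⊗ u`, where `f` and `1 - f` are supported on `H`, `u` is arbitrary. -/
noncomputable def Sp (H : AddSubgroup W.Point) (X Y : F) : Submodule ℚ (HK F) :=
  Submodule.span ℚ {z | ∃ f u : F, Supp H X Y f ∧ Supp H X Y (1 - f) ∧ z = hk (sy f) (lg u)}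

variable (k) in
/-- The residues of `z` at the discrete valuations of `F` which are trivial on `k` are zero. -/
def Unram (z : HK F) : Prop :=
  ∀ v : Valuation F ℤᵐ⁰, (∀ c : k, c ≠ 0 → v (algebraMap k F c) = 1) → NoRes v z

/-- The closed elements of `Sp` are in `L` up to the `{c}₂ ⊗ u`, `c` constant; if `k` is
algebraically closed and `F = k(X, Y)`, those without residues are in `L` up to the
`{c}₂ ⊗ κ`, `c` and `κ` constant. -/
def ClosedIn (H : AddSubgroup W.Point) (X Y : F) (L : Submodule ℚ (HK F)) : Prop :=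
  (∀ z ∈ Sp H X Y, Closed z → ∃ l ∈ L, z - l ∈ Cst k F) ∧
    (IsAlgClosed k → IntermediateField.adjoin k {X, Y} = ⊤ → ∀ z ∈ Sp H X Y, Closed z →
      Unram k z → ∃ l ∈ L, z - l ∈ Cst₀ k F)

/-- `ξ` is a closed element of `Sp` without residues. -/
def IsCls (H : AddSubgroup W.Point) (X Y : F) (ξ : HK F) : Prop :=
  ξ ∈ Sp H X Y ∧ Closed ξ ∧ Unram k ξ

/-- `b` is a root of unity. -/
def RootOfUnity {k : Type*} [Field k] (b : k) : Prop := ∃ n : ℕ, 0 < n ∧ b ^ n = 1

/-- Tate's normal form with respect to the point `P`: in the coordinates `x`, `y` the curve is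
`y² + (1-c)xy - by = x³ - bx²` and `P = (0,0)`. -/
def Tate (P : W.Point) (X Y : F) (b c : k) (x y : F) : Prop :=
  ∃ (u r s t : k) (h : W.Nonsingular r t), P = .some r t h ∧ u ≠ 0 ∧ b ≠ 0 ∧
    X = algebraMap k F (u ^ 2) * x + algebraMap k F r ∧
    Y = algebraMap k F (u ^ 3) * y + algebraMap k F (u ^ 2 * s) * x + algebraMap k F t ∧
    y ^ 2 + (1 - algebraMap k F c) * x * y - algebraMap k F b * y =
      x ^ 3 - algebraMap k F b * x ^ 2

/-- `a` and `b` are multiplicatively independent. -/
def Indep (a b : k) : Prop := ∀ m n : ℤ, a ^ m * b ^ n = 1 → m = 0 ∧ n = 0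

end Pool.Agent.FK4
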