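import Pool.Agent.Lib_helper24.FAM.Tr
import Pool.Agent.Lib_helper24.FAM.DefsT
import Pool.Agent.Lib_helper2.K4N.Q4m
import Pool.Agent.Lib_helper2.K4N.Q4p
import Pool.Agent.Lib_helper2.K4N.Q5
import Pool.Agent.Lib_helper54.FAM.Res

set_option autoImplicit false

/-!
# Points of order four and five
-/

open scoped TensorProduct WithZero

namespace Pool.Agent.FK4

open Pool.Agent.MK4 WeierstrassCurve.Affine
open Pool.Agent.TN (Wt)
open Pool.Agent.UEG (P0)

section gen

variable {k : Type*} [Field k] [CharZero k] {W : WeierstrassCurve.Affine k}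
  {F : Type*} [Field F] [Algebra k F] {X Y : F}

lemma unram_smul {z : HK F} (hz : Unram k z) (r : ℚ) : Unram k (r • z) := fun v hv => by
  have : Infinite (K4R.rf v) := FK4R.infinite_RF hv
  exact FK4R.noRes_smul (hz v hv) r

lemma unram_add {z w : HK F} (hz : Unram k z) (hw : Unram k w) : Unram k (z + w) := fun v hv => by
  have : Infinite (K4R.rf v) := FK4R.infinite_RF hv
  exact FK4R.noRes_add (hz v hv) (hw v hv)

lemma unram_sub {z w : HK F} (hz : Unram k z) (hw : Unram k w) : Unram k (z - w) := fun v hv => by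
  have : Infinite (K4R.rf v) := FK4R.infinite_RF hv
  exact FK4R.noRes_sub (hz v hv) (hw v hv)

lemma unram_zero : Unram k (0 : HK F) := fun v hv => by
  have : Infinite (K4R.rf v) := FK4R.infinite_RF hv
  rw [FK4R.noRes_iff]
  exact map_zero (K4R.resL v)

lemma unram_span {S : Set (HK F)} (hS : ∀ z ∈ S, Unram k z) {l : HK F}
    (hl : l ∈ Submodule.span ℚ S) : Unram k l := by
  induction hl using Submodule.span_induction with
  | mem z hz => exact hS z hz
  | zero => exact unram_zero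
  | add a b _ _ ha hb => exact unram_add ha hb
  | smul q a _ ha => exact unram_smul ha q

variable [DecidableEq k] {H : AddSubgroup W.Point}

/-- the closed elements, from the first part -/
lemma closedIn_of (hg : Generic W X Y) {L : Submodule ℚ (HK F)} (hL : ∀ l ∈ L, Unram k l)
    (h : ∀ z ∈ Sp H X Y, Closed z → ∃ l ∈ L, z - l ∈ Cst k F) : ClosedIn H X Y L := by
  refine ⟨h, fun hk htop z hz hc hu => ?_⟩
  obtain ⟨l, hl, h1⟩ := h z hz hc
  exact ⟨l, hl, FK4R.const_res hg htop h1 (unram_sub hu (hL l hl))⟩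

lemma closedIn_bot (hg : Generic W X Y) (h : OnlyConst H X Y) : ClosedIn H X Y ⊥ := by
  refine closedIn_of hg (fun l hl => ?_) fun z hz hc => ⟨0, Submodule.zero_mem _, ?_⟩
  · rw [Submodule.mem_bot] at hl
    rw [hl]; exact unram_zero
  · rw [sub_zero]; exact h z hz hc

lemma closedIn_line (hg : Generic W X Y) {ξ : HK F} (hξ : Unram k ξ)
    (h : ∀ z ∈ Sp H X Y, Closed z → ∃ r : ℚ, z - r • ξ ∈ Cst k F) :
    ClosedIn H X Y (Submodule.span ℚ {ξ}) := by
  refine closedIn_of hg (fun l hl => unram_span (fun z hz => ?_) hl) fun z hz hc => ?_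
  · rw [Set.mem_singleton_iff.mp hz]; exact hξ
  · obtain ⟨r, hr⟩ := h z hz hc
    exact ⟨_, Submodule.smul_mem _ r (Submodule.mem_span_singleton_self ξ), hr⟩

lemma real_root (φ : k →+* ℝ) {b : k} (hb : RootOfUnity b) : b = 1 ∨ b = -1 := by
  obtain ⟨n, hn, hr⟩ := hb
  have hφ : φ b ^ n = 1 := by rw [← map_pow, hr, map_one]
  have h1 : |φ b| = 1 := by
    have := congrArg abs hφ
    rw [abs_pow, abs_one] at this
    exact (pow_eq_one_iff_of_nonneg (abs_nonneg _) hn.ne').mp this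
  rcases abs_eq (zero_le_one' ℝ) |>.mp h1 with h2 | h2
  · exact Or.inl (φ.injective (by rw [h2, map_one]))
  · exact Or.inr (φ.injective (by rw [h2, map_neg, map_one]))

end gen

variable {k : Type*} [Field k] [DecidableEq k] [CharZero k] {W : WeierstrassCurve.Affine k}
  {F : Type*} [Field F] [Algebra k F] {X Y : F}

theorem four (hg : Generic W X Y) (P : W.Point) (h : addOrderOf P = 4) :
    ∃ (b : k) (x y : F), Tate P X Y b 0 x y ∧ UnitEq (AddSubgroup.zmultiples P) X Y ∧
      (¬ RootOfUnity b → ClosedIn (AddSubgroup.zmultiples P) X Y ⊥) ∧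
      (RootOfUnity b → ∃ ξ : HK F, ξ = hk (sy (x / algebraMap k F b)) (lg y) -
          hk (sy (y / x ^ 2)) (lg x) ∧
        IsCls (AddSubgroup.zmultiples P) X Y ξ ∧
        ClosedIn (AddSubgroup.zmultiples P) X Y (Submodule.span ℚ {ξ}) ∧ RegNonZero k X Y ξ) := by
  obtain ⟨b, c, x, y, hb, hT, hG, hO, hS, htop⟩ := exists_tate hg P le_rfl h
  have h4 : (4 : ℕ) • P0 c hb = 0 := by rw [← hO]; exact addOrderOf_nsmul_eq_zero _
  obtain rfl : c = 0 := UEG.c_of_four hb h4
  have hgen := gen4 hG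
  refine ⟨b, x, y, hT, hS.unitEq.mpr (unitEq4 hb hO hG), ?_, ?_⟩
  · intro hr
    refine closedIn_bot hg fun z hz hc => ?_
    rw [hS.sp, sp4 hb hO hG] at hz
    obtain ⟨β, h1, h2⟩ := TN.N4.closed hb hgen hz hc
    rcases h2 with rfl | h2
    · rw [zero_smul, sub_zero, TN.KC_eq] at h1
      exact h1
    · exact absurd h2 hr
  · intro hru
    obtain ⟨n, hn, hr⟩ := hru
    have hun : Unram k (TN.N4.xi x y (algebraMap k F b)) := fun v hv =>
      FK4R.noRes_four hn.ne' hr hgen v (FK4R.infinite_RF hv)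
    refine ⟨_, rfl, ⟨?_, ?_, hun⟩, ?_, ?_⟩
    · rw [hS.sp, sp4 hb hO hG]
      exact TN.N4.xi_mem hb hgen
    · exact TN.N4.xi_closed hb hgen hn hr
    · refine closedIn_line hg hun fun z hz hc => ?_
      rw [hS.sp, sp4 hb hO hG] at hz
      obtain ⟨β, h1, h2⟩ := TN.N4.closed hb hgen hz hc
      rw [TN.KC_eq] at h1
      exact ⟨β, h1⟩
    · intro φ ht
      have ht' := htop ht
      rcases real_root φ ⟨n, hn, hr⟩ with rfl | rfl
      · exact K4N.rz4p φ hgen ht'
      · exact K4N.rz4m φ hgen ht'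

theorem five (hg : Generic W X Y) (P : W.Point) (h : addOrderOf P = 5) :
    ∃ (b : k) (x y : F), Tate P X Y b b x y ∧
      (b ≠ 1 → b ≠ -1 → UnitEq (AddSubgroup.zmultiples P) X Y) ∧
      (¬ RootOfUnity b → ClosedIn (AddSubgroup.zmultiples P) X Y ⊥) ∧
      (RootOfUnity b → ∃ ξ ξ' : HK F, ξ = xi5 (algebraMap k F b) x y 1 ∧
        ξ' = xi5 (algebraMap k F b) x y 2 ∧
        IsCls (AddSubgroup.zmultiples P) X Y ξ ∧ IsCls (AddSubgroup.zmultiples P) X Y ξ' ∧
        ClosedIn (AddSubgroup.zmultiples P) X Y (Submodule.span ℚ {ξ, ξ'}) ∧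
        (b = 1 ∨ b = -1 → ClosedIn (AddSubgroup.zmultiples P) X Y (Submodule.span ℚ {ξ})) ∧
        RegNonZero k X Y ξ) := by
  obtain ⟨b, c, x, y, hb, hT, hG, hO, hS, htop⟩ := exists_tate hg P (by norm_num) h
  have h5 : (5 : ℕ) • P0 c hb = 0 := by rw [← hO]; exact addOrderOf_nsmul_eq_zero _
  obtain rfl : c = b := UEG.c_of_five hb h5
  have hgen := gen5 hG
  have e1 : TN.N5.Z1 c x y = xi5 (algebraMap k F c) x y 1 := rfl
  have e2 : TN.N5.Z2 c x y = xi5 (algebraMap k F c) x y 2 := rfl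
  refine ⟨c, x, y, hT, fun h1 h2 => hS.unitEq.mpr (unitEq5 hb h1 h2 hO hG), ?_, ?_⟩
  · intro hr
    refine closedIn_bot hg fun z hz hc => ?_
    rw [hS.sp, sp5 hb hO hG] at hz
    obtain ⟨b1, b2, h1, h2, h3⟩ := TN.N5.closed' hb hgen hz hc
    rcases h2 with ⟨rfl, rfl⟩ | h2
    · rw [zero_smul, zero_smul, zero_add, sub_zero, TN.KC_eq] at h1
      exact h1
    · exact absurd h2 hr
  · rintro ⟨n, hn, hr⟩
    have hun : Unram k (xi5 (algebraMap k F c) x y 1) := fun v hv =>
      FK4R.noRes_five1 hn.ne' hr hgen v (FK4R.infinite_RF hv)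
    have hun' : Unram k (xi5 (algebraMap k F c) x y 2) := fun v hv =>
      FK4R.noRes_five2 hn.ne' hr hgen v (FK4R.infinite_RF hv)
    refine ⟨_, _, rfl, rfl, ⟨?_, ?_, hun⟩, ⟨?_, ?_, hun'⟩, ?_, ?_, ?_⟩
    · rw [hS.sp, sp5 hb hO hG, ← e1]
      exact TN.N5.Z1_mem hb hgen
    · rw [← e1]
      exact (TN.N5.Z_closed hb hgen hn hr).1
    · rw [hS.sp, sp5 hb hO hG, ← e2]
      exact TN.N5.Z2_mem hb hgen
    · rw [← e2]
      exact (TN.N5.Z_closed hb hgen hn hr).2
    · refine closedIn_of hg (fun l hl => unram_span (fun z hz => ?_) hl) fun z hz hc => ?_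
      · rcases hz with rfl | hz
        · exact hun
        · rw [Set.mem_singleton_iff.mp hz]; exact hun'
      · rw [hS.sp, sp5 hb hO hG] at hz
        obtain ⟨b1, b2, h1, h2, h3⟩ := TN.N5.closed' hb hgen hz hc
        rw [TN.KC_eq, e1, e2] at h1
        exact ⟨_, Submodule.add_mem _ (Submodule.smul_mem _ b1 (Submodule.subset_span
          (Set.mem_insert _ _))) (Submodule.smul_mem _ b2 (Submodule.subset_span
          (Set.mem_insert_of_mem _ (Set.mem_singleton _)))), h1⟩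
    · intro h1m
      refine closedIn_line hg hun fun z hz hc => ?_
      rw [hS.sp, sp5 hb hO hG] at hz
      obtain ⟨b1, b2, h1, h2, h3⟩ := TN.N5.closed' hb hgen hz hc
      rw [h3 h1m, zero_smul, add_zero, TN.KC_eq, e1] at h1
      exact ⟨b1, h1⟩
    · intro φ ht
      have ht' := htop ht
      rw [← e1]
      rcases real_root φ ⟨n, hn, hr⟩ with rfl | rfl
      · exact K4N.rz5p φ hgen ht'
      · exact K4N.rz5m φ hgen ht'

end Pool.Agent.FK4
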