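import Pool.Agent.Lib_helper60.N6.R6
import Pool.Agent.Lib_helper87.FAM.SevenL
import Pool.Agent.Lib_helper87.FAM.EightL
import Pool.Agent.Lib_helper87.FAM.NineL
import Pool.Agent.Lib_helper24.FAM.GP
import Pool.Agent.Lib_helper24.FAM.Rt
import Pool.Agent.Lib_helper24.TJ.Tor
import Pool.Agent.Lib_helper40.UP10.Main10

set_option autoImplicit false

/-! everything (not part of the hand-in) -/
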