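import Pool.Agent.Lib_helper24.FAM.Tr
import Pool.Agent.Lib_helper76.FAM.Thr

set_option autoImplicit false

/-!
# Transport to the Tate normal form, with lines through a point of the curve
-/

open scoped TensorProduct

namespace Pool.Agent.FK4

open Pool.Agent.MK4 WeierstrassCurve.Affine
open Pool.Agent.TN (Wt)
open Pool.Agent.UEG (P0)

variable {k : Type*} [Field k] [DecidableEq k] {W : WeierstrassCurve.Affine k} {F : Type*}
  [Field F] [Algebra k F] {X Y : F}

/-- **every point of order at least four has a Tate normal form** -/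
theorem exists_tateU (hg : Generic W X Y) (P : W.Point) {N : ℕ} (hN : 4 ≤ N)
    (h : addOrderOf P = N) :
    ∃ (b c : k) (x y : F) (hb : b ≠ 0), Tate P X Y b c x y ∧ Generic (Wt b c) x y ∧
      addOrderOf (P0 c hb) = N ∧
      Same (AddSubgroup.zmultiples P) X Y (AddSubgroup.zmultiples (P0 c hb)) x y ∧
      (UnitEqS (AddSubgroup.zmultiples P) X Y ↔
        UnitEqS (AddSubgroup.zmultiples (P0 c hb)) x y) ∧
      (IntermediateField.adjoin k {X, Y} = ⊤ → IntermediateField.adjoin k {x, y} = ⊤) := by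
  rcases P with _ | ⟨p₁, p₂, hP⟩
  · exfalso
    have : addOrderOf (0 : W.Point) = N := h
    rw [addOrderOf_zero] at this
    omega
  obtain ⟨b, c, u, s, hb, hC, hO, hH⟩ := UEG.tate_of_order hP hN h
  have hU : algebraMap k F u ≠ 0 := (_root_.map_ne_zero _).mpr hC.hu
  have eX := UEG.X_eq (F := F) (r := p₁) hC.hu X
  have eY := UEG.Y_eq (F := F) (r := p₁) (s := s) (t := p₂) hC.hu X Y
  have hG := hC.gen hg.toU
  refine ⟨b, c, UEG.nx F u p₁ X, UEG.ny F u p₁ s p₂ X Y, hb, ?_, toGeneric hG, hO, ⟨?_, ?_⟩,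
    ?_, ?_⟩
  · refine ⟨u, p₁, s, p₂, hP, rfl, hC.hu, hb, ?_, ?_, ?_⟩
    · rw [map_pow]; exact eX
    · rw [map_mul, map_pow, map_pow]; exact eY
    · exact (UE4.of_UEG hG).eq
  · intro f
    rw [supp_iff, supp_iff, hC.IsUn_iff]
    rw [hH]
  · intro f
    exact (lin_chg hC.hu).symm
  · rw [unitEqS_chg hC, hH]
  · intro htop
    rw [eq_top_iff, ← htop, IntermediateField.adjoin_le_iff]
    set L := IntermediateField.adjoin k {UEG.nx F u p₁ X, UEG.ny F u p₁ s p₂ X Y} with hL
    have hx : UEG.nx F u p₁ X ∈ L := IntermediateField.subset_adjoin k _ (Set.mem_insert _ _)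
    have hy : UEG.ny F u p₁ s p₂ X Y ∈ L :=
      IntermediateField.subset_adjoin k _ (Set.mem_insert_of_mem _ (Set.mem_singleton _))
    have hc : ∀ c : k, algebraMap k F c ∈ L := fun c => L.algebraMap_mem c
    have hX : X ∈ L := by
      rw [eX]
      exact add_mem (mul_mem (pow_mem (hc _) 2) hx) (hc _)
    have hY : Y ∈ L := by
      rw [eY]
      exact add_mem (add_mem (mul_mem (pow_mem (hc _) 3) hy)
        (mul_mem (mul_mem (pow_mem (hc _) 2) (hc _)) hx)) (hc _)
    rintro z (rfl | rfl)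
    · exact hX
    · exact hY

end Pool.Agent.FK4
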