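import Pool.Agent.Lib_helper24.FAM.Gen
import Pool.Agent.Lib_helper24.TN.N5X

set_option autoImplicit false

/-!
# Transport to the Tate normal form
-/

open scoped TensorProduct

namespace Pool.Agent.FK4

open Pool.Agent.MK4 WeierstrassCurve.Affine
open Pool.Agent.TN (Wt)
open Pool.Agent.UEG (P0)

variable {k : Type*} [Field k] [DecidableEq k] {W : WeierstrassCurve.Affine k} {F : Type*}
  [Field F] [Algebra k F] {X Y : F}

/-- equality of the functions supported on two groups -/
structure Same {W W' : WeierstrassCurve.Affine k} (H : AddSubgroup W.Point) (X Y : F)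
    (H' : AddSubgroup W'.Point) (x y : F) : Prop where
  supp : ∀ f : F, Supp H X Y f ↔ Supp H' x y f
  lin : ∀ f : F, Lin k X Y f ↔ Lin k x y f

variable {W' : WeierstrassCurve.Affine k} {H : AddSubgroup W.Point} {H' : AddSubgroup W'.Point}
  {x y : F}

lemma Same.lineQ (h : Same H X Y H' x y) (f : F) : LineQ H X Y f ↔ LineQ H' x y f := by
  unfold LineQ
  simp only [h.supp, h.lin]

lemma Same.unitEq (h : Same H X Y H' x y) : UnitEq H X Y ↔ UnitEq H' x y := by
  unfold UnitEq
  simp only [h.supp, h.lineQ]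

lemma Same.sp (h : Same H X Y H' x y) : Sp H X Y = Sp H' x y := by
  unfold Sp
  simp only [h.supp]

lemma Same.onlyConst (h : Same H X Y H' x y) : OnlyConst H X Y ↔ OnlyConst H' x y := by
  unfold OnlyConst
  rw [h.sp]

/-- **every point of order at least four has a Tate normal form** -/
theorem exists_tate (hg : Generic W X Y) (P : W.Point) {N : ℕ} (hN : 4 ≤ N)
    (h : addOrderOf P = N) :
    ∃ (b c : k) (x y : F) (hb : b ≠ 0), Tate P X Y b c x y ∧ Generic (Wt b c) x y ∧
      addOrderOf (P0 c hb) = N ∧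
      Same (AddSubgroup.zmultiples P) X Y (AddSubgroup.zmultiples (P0 c hb)) x y ∧
      (IntermediateField.adjoin k {X, Y} = ⊤ → IntermediateField.adjoin k {x, y} = ⊤) := by
  rcases P with _ | ⟨p₁, p₂, hP⟩
  · exfalso
    have : addOrderOf (0 : W.Point) = N := h
    rw [addOrderOf_zero] at this
    omega
  obtain ⟨b, c, u, s, hb, hC, hO, hH⟩ := UEG.tate_of_order hP hN h
  have hU : algebraMap k F u ≠ 0 := (_root_.map_ne_zero _).mpr hC.hu
  have eX := UEG.X_eq (F := F) (r := p₁) hC.hu X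
  have eY := UEG.Y_eq (F := F) (r := p₁) (s := s) (t := p₂) hC.hu X Y
  have hG := hC.gen hg.toU
  refine ⟨b, c, UEG.nx F u p₁ X, UEG.ny F u p₁ s p₂ X Y, hb, ?_, toGeneric hG, hO, ⟨?_, ?_⟩, ?_⟩
  · refine ⟨u, p₁, s, p₂, hP, rfl, hC.hu, hb, ?_, ?_, ?_⟩
    · rw [map_pow]; exact eX
    · rw [map_mul, map_pow, map_pow]; exact eY
    · exact (UE4.of_UEG hG).eq
  · intro f
    rw [supp_iff, supp_iff, hC.IsUn_iff]
    rw [hH]
  · intro f
    exact (lin_chg hC.hu).symm
  · intro htop
    rw [eq_top_iff, ← htop, IntermediateField.adjoin_le_iff]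
    set L := IntermediateField.adjoin k {UEG.nx F u p₁ X, UEG.ny F u p₁ s p₂ X Y} with hL
    have hx : UEG.nx F u p₁ X ∈ L := IntermediateField.subset_adjoin k _ (Set.mem_insert _ _)
    have hy : UEG.ny F u p₁ s p₂ X Y ∈ L :=
      IntermediateField.subset_adjoin k _ (Set.mem_insert_of_mem _ (Set.mem_singleton _))
    have hc : ∀ c : k, algebraMap k F c ∈ L := fun c => L.algebraMap_mem c
    have hX : X ∈ L := by
      rw [eX]
      exact add_mem (mul_mem (pow_mem (hc _) 2) hx) (hc _)
    have hY : Y ∈ L := by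
      rw [eY]
      exact add_mem (add_mem (mul_mem (pow_mem (hc _) 3) hy)
        (mul_mem (mul_mem (pow_mem (hc _) 2) (hc _)) hx)) (hc _)
    rintro z (rfl | rfl)
    · exact hX
    · exact hY

/-! ### order four -/

section N4

variable {b : k}

lemma gen4 (h : Generic (Wt b 0) x y) : TN.Gen b 0 x y := UE4.of_UEG h.toU

lemma supp4 (hb : b ≠ 0) (hO : addOrderOf (P0 (0 : k) hb) = 4) (h : Generic (Wt b 0) x y) (f : F) :
    Supp (AddSubgroup.zmultiples (P0 (0 : k) hb)) x y f ↔ TN.N4.U b x y f := by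
  rw [supp_iff]
  exact UE4.isUn4 hb (by rw [← hO]; exact addOrderOf_nsmul_eq_zero _) h.toU f

lemma lineQ4 [CharZero k] (hb : b ≠ 0) (hO : addOrderOf (P0 (0 : k) hb) = 4)
    (h : Generic (Wt b 0) x y) :
    LineQ (AddSubgroup.zmultiples (P0 (0 : k) hb)) x y (x / algebraMap k F b) ∧
    LineQ (AddSubgroup.zmultiples (P0 (0 : k) hb)) x y (y / x ^ 2) := by
  have hs := supp4 hb hO h
  have hg := gen4 h
  have hx := hg.x_ne
  have hy := hg.y_ne
  have hx1 := hg.xc_ne b
  have hB : algebraMap k F b ≠ 0 := (_root_.map_ne_zero _).mpr hb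
  have he := hg.eq
  rw [map_zero] at he
  have sx : Supp (AddSubgroup.zmultiples (P0 (0 : k) hb)) x y x :=
    (hs x).mpr ⟨1, 1, 0, 0, one_ne_zero, by unfold TN.N4.M; simp⟩
  have sx1 : Supp (AddSubgroup.zmultiples (P0 (0 : k) hb)) x y (x - algebraMap k F b) :=
    (hs _).mpr ⟨1, 0, 1, 0, one_ne_zero, by unfold TN.N4.M; simp⟩
  have sy' : Supp (AddSubgroup.zmultiples (P0 (0 : k) hb)) x y y :=
    (hs _).mpr ⟨1, 0, 0, 1, one_ne_zero, by unfold TN.N4.M; simp⟩
  constructor
  · have := LineQ.of_two (H := AddSubgroup.zmultiples (P0 (0 : k) hb)) (X := x) (Y := y)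
      (L := x) (T := 1) (Z := x) lin_X (by rw [← map_one (algebraMap k F)]; exact lin_const 1)
      supp_one (by rw [div_one]) hb sx sx1
    exact this
  · -- `y / x² = (x - b) / (y + x - b)`
    have e1 : y * (y + x - algebraMap k F b) = x ^ 2 * (x - algebraMap k F b) := by
      linear_combination he
    have hT : y + x - algebraMap k F b ≠ 0 := by
      intro h'
      rw [h', mul_zero] at e1
      exact mul_ne_zero (pow_ne_zero 2 hx) hx1 e1.symm
    have eT : y + x - algebraMap k F b = x ^ 2 * (x - algebraMap k F b) / y := by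
      rw [eq_div_iff hy, mul_comm]; exact e1
    refine ⟨x - algebraMap k F b, y + x - algebraMap k F b, lin_X.sub (lin_const b),
      (lin_Y.add lin_X).sub (lin_const b), sx1, ?_, ?_, ?_⟩
    · rw [eT]
      exact ((sx.pow 2).mul sx1).div sy'
    · have : y + x - algebraMap k F b - (x - algebraMap k F b) = y := by ring
      rw [this]; exact sy'
    · rw [div_eq_div_iff (pow_ne_zero 2 hx) hT]
      linear_combination e1

theorem unitEq4 [CharZero k] (hb : b ≠ 0) (hO : addOrderOf (P0 (0 : k) hb) = 4)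
    (h : Generic (Wt b 0) x y) : UnitEq (AddSubgroup.zmultiples (P0 (0 : k) hb)) x y := by
  refine unitEq_of fun f h1 h2 => ?_
  rcases TN.N4.orb hb (gen4 h) ((supp4 hb hO h f).mp h1) ((supp4 hb hO h _).mp h2) with
    h3 | h3 | h3
  · exact Or.inl h3
  · exact Or.inr ((lineQ4 hb hO h).1.orb h3)
  · exact Or.inr ((lineQ4 hb hO h).2.orb h3)

lemma sp4 (hb : b ≠ 0) (hO : addOrderOf (P0 (0 : k) hb) = 4) (h : Generic (Wt b 0) x y) :
    Sp (AddSubgroup.zmultiples (P0 (0 : k) hb)) x y = TN.N4.Cu b x y :=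
  sp_eq (supp4 hb hO h)

end N4

/-! ### order five -/

section N5

variable {b : k}

lemma gen5 (h : Generic (Wt b b) x y) : TN.Gen b b x y := UE4.of_UEG h.toU

lemma supp5 (hb : b ≠ 0) (hO : addOrderOf (P0 b hb) = 5) (h : Generic (Wt b b) x y) (f : F) :
    Supp (AddSubgroup.zmultiples (P0 b hb)) x y f ↔ TN.N5.U b x y f := by
  rw [supp_iff]
  exact UE5.isUn5 hb (by rw [← hO]; exact addOrderOf_nsmul_eq_zero _) h.toU f

lemma lineQ5 [CharZero k] (hb : b ≠ 0) (hO : addOrderOf (P0 b hb) = 5)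
    (h : Generic (Wt b b) x y) (j : Fin 5) :
    LineQ (AddSubgroup.zmultiples (P0 b hb)) x y (TN.N5.v b x y j) := by
  set H := AddSubgroup.zmultiples (P0 b hb) with hH
  have hs : ∀ f, Supp H x y f ↔ TN.N5.U b x y f := supp5 hb hO h
  have hg := gen5 h
  have hx := hg.x_ne
  have hy := hg.y_ne
  have hx1 := hg.xc_ne b
  have hw := TN.N5.Gen.w_ne hg
  have hB : algebraMap k F b ≠ 0 := (_root_.map_ne_zero _).mpr hb
  have he := hg.eq
  have sx : Supp H x y x := (hs x).mpr ⟨1, 1, 0, 0, 0, one_ne_zero, by unfold TN.N5.M; simp⟩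
  have sx1 : Supp H x y (x - algebraMap k F b) :=
    (hs _).mpr ⟨1, 0, 1, 0, 0, one_ne_zero, by unfold TN.N5.M; simp⟩
  have sy' : Supp H x y y := (hs _).mpr ⟨1, 0, 0, 1, 0, one_ne_zero, by unfold TN.N5.M; simp⟩
  have sw : Supp H x y (y - algebraMap k F b * x) :=
    (hs _).mpr ⟨1, 0, 0, 0, 1, one_ne_zero, by unfold TN.N5.M; simp⟩
  have eB : y + (1 - algebraMap k F b) * x - algebraMap k F b =
      x ^ 2 * (x - algebraMap k F b) / y := by
    rw [eq_div_iff hy]; linear_combination he
  have eA : y + x - algebraMap k F b = x * (x - algebraMap k F b) ^ 2 /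
      (y - algebraMap k F b * x) := by
    rw [eq_div_iff hw]; linear_combination he
  have sB : Supp H x y (y + (1 - algebraMap k F b) * x - algebraMap k F b) := by
    rw [eB]; exact ((sx.pow 2).mul sx1).div sy'
  have sA : Supp H x y (y + x - algebraMap k F b) := by
    rw [eA]; exact (sx.mul (sx1.pow 2)).div sw
  have lB : Lin k x y (y + (1 - algebraMap k F b) * x - algebraMap k F b) :=
    ⟨-b, 1 - b, 1, by simp only [map_neg, map_sub, map_one]; ring⟩
  have lA : Lin k x y (y + x - algebraMap k F b) := (lin_Y.add lin_X).sub (lin_const b)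
  have lw : Lin k x y (y - algebraMap k F b * x) := lin_Y.sub (lin_X.smul b)
  have lx1 : Lin k x y (x - algebraMap k F b) := lin_X.sub (lin_const b)
  have sb : Supp H x y (algebraMap k F b) := supp_const hb
  have hA := sA.1
  have hB' := sB.1
  fin_cases j
  · exact ⟨algebraMap k F b, x, lin_const b, lin_X, sb, sx, sx1, rfl⟩
  · refine ⟨y + x - algebraMap k F b, y + (1 - algebraMap k F b) * x - algebraMap k F b, lA, lB,
      sA, sB, ?_, ?_⟩
    · have : y + (1 - algebraMap k F b) * x - algebraMap k F b - (y + x - algebraMap k F b) =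
          -(algebraMap k F b * x) := by ring
      rw [this]
      exact (sb.mul sx).neg
    · show y * (x - algebraMap k F b) / (x * (y - algebraMap k F b * x)) = _
      rw [eA, eB]
      field_simp
  · refine ⟨-y, x - algebraMap k F b, lin_Y.neg, lx1, sy'.neg, sx1, ?_, rfl⟩
    have : x - algebraMap k F b - -y = y + x - algebraMap k F b := by ring
    rw [this]; exact sA
  · refine ⟨y + (1 - algebraMap k F b) * x - algebraMap k F b, x - algebraMap k F b, lB, lx1, sB,
      sx1, ?_, ?_⟩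
    · have : x - algebraMap k F b - (y + (1 - algebraMap k F b) * x - algebraMap k F b) =
          -(y - algebraMap k F b * x) := by ring
      rw [this]; exact sw.neg
    · show x ^ 2 / y = _
      rw [eB]
      field_simp
  · refine ⟨y - algebraMap k F b * x, y, lw, lin_Y, sw, sy', ?_, rfl⟩
    have : y - (y - algebraMap k F b * x) = algebraMap k F b * x := by ring
    rw [this]; exact sb.mul sx

theorem unitEq5 [CharZero k] (hb : b ≠ 0) (h1 : b ≠ 1) (h1' : b ≠ -1)
    (hO : addOrderOf (P0 b hb) = 5) (h : Generic (Wt b b) x y) :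
    UnitEq (AddSubgroup.zmultiples (P0 b hb)) x y := by
  refine unitEq_of fun f h1f h2f => ?_
  rcases TN.N5.unit_eq hb (gen5 h) f ((supp5 hb hO h f).mp h1f) ((supp5 hb hO h _).mp h2f) with
    h3 | ⟨j, h3⟩ | ⟨h3, -⟩ | ⟨h3, -⟩
  · exact Or.inl h3
  · exact Or.inr ((lineQ5 hb hO h j).orb h3)
  · exact absurd h3 h1
  · exact absurd h3 h1'

lemma sp5 (hb : b ≠ 0) (hO : addOrderOf (P0 b hb) = 5) (h : Generic (Wt b b) x y) :
    Sp (AddSubgroup.zmultiples (P0 b hb)) x y = TN.N5.Cu b x y :=
  sp_eq (supp5 hb hO h)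

end N5

end Pool.Agent.FK4
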