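import Pool.Agent.Lib_helper24.FAM.R45
import Pool.Agent.Lib_helper24.FAM.Tr2
import Pool.Agent.Lib_helper76.FAM.L45

set_option autoImplicit false

/-!
# The clauses of the final theorem, and the points of order four and five
-/

open scoped TensorProduct WithZero

namespace Pool.Agent.FK4

open Pool.Agent.MK4 WeierstrassCurve.Affine
open Pool.Agent.TN (Wt)
open Pool.Agent.UEG (P0)

variable {k : Type*} [Field k] [DecidableEq k] {W : WeierstrassCurve.Affine k} {F : Type*}
  [Field F] [Algebra k F]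

section proofs

variable [CharZero k] {X Y : F}

theorem four' (hg : Generic W X Y) (P : W.Point) (h : addOrderOf P = 4) : Four P X Y := by
  obtain ⟨b, c, x, y, hb, hT, hG, hO, hS, hUE, htop⟩ := exists_tateU hg P le_rfl h
  have h4 : (4 : ℕ) • P0 c hb = 0 := by rw [← hO]; exact addOrderOf_nsmul_eq_zero _
  obtain rfl : c = 0 := UEG.c_of_four hb h4
  have hgen := gen4 hG
  refine ⟨b, x, y, hT, hUE.mpr (unitEqS4 hb hO hG), ?_, ?_⟩
  · intro hr
    refine closedIn_bot hg fun z hz hc => ?_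
    rw [hS.sp, sp4 hb hO hG] at hz
    obtain ⟨β, h1, h2⟩ := TN.N4.closed hb hgen hz hc
    rcases h2 with rfl | h2
    · rw [zero_smul, sub_zero, TN.KC_eq] at h1
      exact h1
    · exact absurd h2 hr
  · intro hru
    obtain ⟨n, hn, hr⟩ := hru
    have hun : Unram k (TN.N4.xi x y (algebraMap k F b)) := fun v hv =>
      FK4R.noRes_four hn.ne' hr hgen v (FK4R.infinite_RF hv)
    refine ⟨_, rfl, ⟨?_, ?_, hun⟩, ?_, ?_⟩
    · rw [hS.sp, sp4 hb hO hG]
      exact TN.N4.xi_mem hb hgen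
    · exact TN.N4.xi_closed hb hgen hn hr
    · refine closedIn_line hg hun fun z hz hc => ?_
      rw [hS.sp, sp4 hb hO hG] at hz
      obtain ⟨β, h1, h2⟩ := TN.N4.closed hb hgen hz hc
      rw [TN.KC_eq] at h1
      exact ⟨β, h1⟩
    · intro φ ht
      have ht' := htop ht
      rcases real_root φ ⟨n, hn, hr⟩ with rfl | rfl
      · exact K4N.rz4p φ hgen ht'
      · exact K4N.rz4m φ hgen ht'

theorem five' (hg : Generic W X Y) (P : W.Point) (h : addOrderOf P = 5) : Five P X Y := by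
  obtain ⟨b, c, x, y, hb, hT, hG, hO, hS, hUE, htop⟩ := exists_tateU hg P (by norm_num) h
  have h5 : (5 : ℕ) • P0 c hb = 0 := by rw [← hO]; exact addOrderOf_nsmul_eq_zero _
  obtain rfl : c = b := UEG.c_of_five hb h5
  have hgen := gen5 hG
  have e1 : TN.N5.Z1 c x y = xi5 (algebraMap k F c) x y 1 := rfl
  have e2 : TN.N5.Z2 c x y = xi5 (algebraMap k F c) x y 2 := rfl
  refine ⟨c, x, y, hT, fun h1 h2 => hUE.mpr (unitEqS5 hb h1 h2 hO hG), ?_, ?_⟩
  · intro hr
    refine closedIn_bot hg fun z hz hc => ?_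
    rw [hS.sp, sp5 hb hO hG] at hz
    obtain ⟨b1, b2, h1, h2, h3⟩ := TN.N5.closed' hb hgen hz hc
    rcases h2 with ⟨rfl, rfl⟩ | h2
    · rw [zero_smul, zero_smul, zero_add, sub_zero, TN.KC_eq] at h1
      exact h1
    · exact absurd h2 hr
  · rintro ⟨n, hn, hr⟩
    have hun : Unram k (xi5 (algebraMap k F c) x y 1) := fun v hv =>
      FK4R.noRes_five1 hn.ne' hr hgen v (FK4R.infinite_RF hv)
    have hun' : Unram k (xi5 (algebraMap k F c) x y 2) := fun v hv =>
      FK4R.noRes_five2 hn.ne' hr hgen v (FK4R.infinite_RF hv)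
    refine ⟨_, _, rfl, rfl, ⟨?_, ?_, hun⟩, ⟨?_, ?_, hun'⟩, ?_, ?_, ?_⟩
    · rw [hS.sp, sp5 hb hO hG, ← e1]
      exact TN.N5.Z1_mem hb hgen
    · rw [← e1]
      exact (TN.N5.Z_closed hb hgen hn hr).1
    · rw [hS.sp, sp5 hb hO hG, ← e2]
      exact TN.N5.Z2_mem hb hgen
    · rw [← e2]
      exact (TN.N5.Z_closed hb hgen hn hr).2
    · refine closedIn_of hg (fun l hl => unram_span (fun z hz => ?_) hl) fun z hz hc => ?_
      · rcases hz with rfl | hz
        · exact hun
        · rw [Set.mem_singleton_iff.mp hz]; exact hun'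
      · rw [hS.sp, sp5 hb hO hG] at hz
        obtain ⟨b1, b2, h1, h2, h3⟩ := TN.N5.closed' hb hgen hz hc
        rw [TN.KC_eq, e1, e2] at h1
        exact ⟨_, Submodule.add_mem _ (Submodule.smul_mem _ b1 (Submodule.subset_span
          (Set.mem_insert _ _))) (Submodule.smul_mem _ b2 (Submodule.subset_span
          (Set.mem_insert_of_mem _ (Set.mem_singleton _)))), h1⟩
    · intro h1m
      refine closedIn_line hg hun fun z hz hc => ?_
      rw [hS.sp, sp5 hb hO hG] at hz
      obtain ⟨b1, b2, h1, h2, h3⟩ := TN.N5.closed' hb hgen hz hc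
      rw [h3 h1m, zero_smul, add_zero, TN.KC_eq, e1] at h1
      exact ⟨b1, h1⟩
    · intro φ ht
      have ht' := htop ht
      rw [← e1]
      rcases real_root φ ⟨n, hn, hr⟩ with rfl | rfl
      · exact K4N.rz5p φ hgen ht'
      · exact K4N.rz5m φ hgen ht'

end proofs

end Pool.Agent.FK4
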