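import Pool.Agent.Lib_helper24.FAM.Defs

set_option autoImplicit false

/-!
# Auxiliary notions
-/

open scoped TensorProduct WithZero

namespace Pool.Agent.FK4

open Pool.Agent.MK4 WeierstrassCurve.Affine

variable {k : Type*} [Field k] [DecidableEq k] {W : WeierstrassCurve.Affine k} {F : Type*}
  [Field F] [Algebra k F]

variable (k) in
/-- `f` is a linear form in `1`, `X`, `Y`. -/
def Lin (X Y f : F) : Prop :=
  ∃ a b c : k, f = algebraMap k F a + algebraMap k F b * X + algebraMap k F c * Y

/-- `f` is the quotient of two linear forms supported on `H`, whose difference is supported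
on `H`. -/
def LineQ (H : AddSubgroup W.Point) (X Y f : F) : Prop :=
  ∃ l m : F, Lin k X Y l ∧ Lin k X Y m ∧ Supp H X Y l ∧ Supp H X Y m ∧ Supp H X Y (m - l) ∧
    f = l / m

/-- The unit equation on the functions supported on `H`: only the constants and the quotients of
lines. -/
def UnitEq (H : AddSubgroup W.Point) (X Y : F) : Prop :=
  ∀ f : F, (Supp H X Y f ∧ Supp H X Y (1 - f)) ↔
    (∃ c : k, c ≠ 0 ∧ c ≠ 1 ∧ f = algebraMap k F c) ∨ LineQ H X Y f

/-- The closed elements of `Sp` are in the span of the `{c}₂ ⊗ u`, `c` constant. -/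
def OnlyConst (H : AddSubgroup W.Point) (X Y : F) : Prop :=
  ∀ z ∈ Sp H X Y, Closed z → z ∈ Cst k F


end Pool.Agent.FK4
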