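import Pool.Agent.Lib_helper60.EXC.Six
import Pool.Agent.Lib_helper60.EXC.Eight

/-!
# Points of order six and of order eight
-/

set_option autoImplicit false
set_option linter.unusedSectionVars false

open scoped TensorProduct WithZero

namespace Pool.Agent.FK4

open Pool.Agent.MK4 WeierstrassCurve.Affine

variable {k : Type*} [Field k] [DecidableEq k] [CharZero k] {W : WeierstrassCurve.Affine k}
  {F : Type*} [Field F] [Algebra k F] {X Y : F}

theorem six (hg : Generic W X Y) (P : W.Point) (h : addOrderOf P = 6) : Six P X Y :=
  six_all hg P h

theorem eight (hg : Generic W X Y) (P : W.Point) (h : addOrderOf P = 8) : Eight P X Y :=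
  eight_all hg P h

end Pool.Agent.FK4
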