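import Pool.Agent.Lib_helper87.SG.Final

set_option autoImplicit false

/-!
# Small groups
-/

open scoped TensorProduct WithZero

namespace Pool.Agent.FK4

open Pool.Agent.MK4 WeierstrassCurve.Affine

variable {k : Type*} [Field k] [DecidableEq k] [CharZero k] {W : WeierstrassCurve.Affine k}
  {F : Type*} [Field F] [Algebra k F] {X Y : F}

theorem smallGroup (hg : Generic W X Y) (H : AddSubgroup W.Point) [Fintype H] :
    SmallGroup H X Y := by
  obtain ⟨h3, h4⟩ := SG.small (H := H) hg
  rintro (h | ⟨h, h'⟩)
  · exact (h3 h).2.1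
  · exact (h4 h h').2

end Pool.Agent.FK4
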