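import Pool.Agent.Lib_helper24.FAM.Rt2
import Pool.Agent.Lib_helper24.FAM.Sm
import Pool.Agent.Lib_helper24.FAM.Six8
import Pool.Agent.Lib_helper24.FAM.Cl
import Pool.Agent.Lib_helper87.FAM.SevenL
import Pool.Agent.Lib_helper87.FAM.NineL
import Pool.Agent.Lib_helper76.UE10.Ten3
import Pool.Agent.Lib_helper76.UE12.Twelve

set_option autoImplicit false

/-!
# Curves over the rational numbers: every point of finite order
-/

open scoped TensorProduct WithZero

namespace Pool.Agent.FK4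

open Pool.Agent.MK4 WeierstrassCurve.Affine

section

variable {k : Type*} [Field k] [DecidableEq k] [CharZero k] {W : WeierstrassCurve.Affine k}
  {F : Type*} [Field F] [Algebra k F] {X Y : F}

lemma dich_small (hg : Generic W X Y) (P : W.Point) (h0 : addOrderOf P ≠ 0)
    (h : addOrderOf P ≤ 3) : ClosedIn (AddSubgroup.zmultiples P) X Y ⊥ := by
  have hc : Nat.card (AddSubgroup.zmultiples P) = addOrderOf P := Nat.card_zmultiples P
  have : Finite (AddSubgroup.zmultiples P) := Nat.finite_of_card_ne_zero (by rw [hc]; exact h0)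
  have := Fintype.ofFinite (AddSubgroup.zmultiples P)
  exact smallGroup hg _ (Or.inl (by rw [← Nat.card_eq_fintype_card, hc]; exact h))

lemma rootOfUnity_rat {b : ℚ} (h : RootOfUnity b) : b = 1 ∨ b = -1 := by
  obtain ⟨n, hn, h⟩ := h
  have h1 : |b| ^ n = 1 := by rw [← abs_pow, h, abs_one]
  have h2 : |b| = 1 := (pow_eq_one_iff_of_nonneg (abs_nonneg b) hn.ne').mp h1
  exact eq_or_eq_neg_of_abs_eq h2

lemma tate_b {P : W.Point} {b c : k} {x y : F} (h : Tate P X Y b c x y) : b ≠ 0 := by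
  obtain ⟨u, r, s, t, h, -, -, hb, -⟩ := h
  exact hb

lemma four_dich {P : W.Point} (h : Four P X Y) :
    ClosedIn (AddSubgroup.zmultiples P) X Y ⊥ ∨ Line P X Y := by
  obtain ⟨b, x, y, -, -, h1, h2⟩ := h
  by_cases hb : RootOfUnity b
  · obtain ⟨ξ, -, h3, h4, h5⟩ := h2 hb
    exact Or.inr ⟨ξ, h3, h4, h5⟩
  · exact Or.inl (h1 hb)

end

section

variable {W : WeierstrassCurve.Affine ℚ} {F : Type*} [Field F] [Algebra ℚ F] {X Y : F}

lemma five_dich {P : W.Point} (h : Five P X Y) :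
    ClosedIn (AddSubgroup.zmultiples P) X Y ⊥ ∨ Line P X Y := by
  obtain ⟨b, x, y, -, -, h1, h2⟩ := h
  by_cases hb : RootOfUnity b
  · obtain ⟨ξ, ξ', -, -, h3, -, -, h4, h5⟩ := h2 hb
    exact Or.inr ⟨ξ, h3, h4 (rootOfUnity_rat hb), h5⟩
  · exact Or.inl (h1 hb)

lemma seven_dich {P : W.Point} (h : Seven P X Y) :
    ClosedIn (AddSubgroup.zmultiples P) X Y ⊥ ∨ Line P X Y := by
  obtain ⟨d, x, y, hT, h1, h2⟩ := h
  have hb := tate_b hT
  have d0 : d ≠ 0 := fun e => hb (by rw [e]; ring)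
  have d1 : d ≠ 1 := fun e => hb (by rw [e]; ring)
  rcases overQ.2.1 d d0 d1 with e | e | e | e
  · exact Or.inr (h2 (Or.inl e))
  · exact Or.inr (h2 (Or.inr (Or.inl e)))
  · exact Or.inr (h2 (Or.inr (Or.inr e)))
  · exact Or.inl (h1 e).2

lemma nine_dich {P : W.Point} (h : Nine P X Y) :
    ClosedIn (AddSubgroup.zmultiples P) X Y ⊥ ∨ Line P X Y := by
  obtain ⟨d, x, y, hT, h1, h2⟩ := h
  have hb := tate_b hT
  have d0 : d ≠ 0 := fun e => hb (by rw [e]; ring)
  have d1 : d ≠ 1 := fun e => hb (by rw [e]; ring)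
  rcases overQ.2.2.2.1 d d0 d1 with e | e | e | ⟨e, e1, e2⟩
  · exact Or.inr (h2 (Or.inl e))
  · exact Or.inr (h2 (Or.inr (Or.inl e)))
  · exact Or.inr (h2 (Or.inr (Or.inr e)))
  · exact Or.inl (h1 e e1 e2).2

lemma ten_dich {P : W.Point} (h : Ten P X Y) :
    ClosedIn (AddSubgroup.zmultiples P) X Y ⊥ ∨ Line P X Y := by
  obtain ⟨t, b, c, e, x, y, hc, hb, -, hT, h1, h2, h3⟩ := h
  have h0 := tate_b hT
  rw [hb, hc] at h0
  have d0 : t ≠ 0 := fun e => h0 (by rw [e]; ring)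
  have d1 : t ≠ 1 := fun e => h0 (by rw [e]; ring)
  have d2 : 2 * t ≠ 1 := fun e => h0 (by rw [e]; ring)
  rcases overQ.2.2.2.2.1 t d0 d1 d2 with e | e | e | e | e | e | e | e | e | e | e | e | e
  · exact Or.inr (h2 (Or.inl e))
  · exact Or.inr (h2 (Or.inr (Or.inl e)))
  · exact Or.inr (h2 (Or.inr (Or.inr (Or.inl e))))
  · exact Or.inr (h2 (Or.inr (Or.inr (Or.inr e))))
  · exact Or.inl (h3 (by tauto))
  · exact Or.inl (h3 (by tauto))
  · exact Or.inl (h3 (by tauto))
  · exact Or.inl (h3 (by tauto))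
  · exact Or.inl (h3 (by tauto))
  · exact Or.inl (h3 (by tauto))
  · exact Or.inl (h3 (by tauto))
  · exact Or.inl (h3 (by tauto))
  · exact Or.inl (h1 e).2

lemma twelve_dich {P : W.Point} (h : Twelve P X Y) :
    ClosedIn (AddSubgroup.zmultiples P) X Y ⊥ ∨ Line P X Y := by
  obtain ⟨t, b, c, x, y, hc, hb, hT, h1, h2, h3⟩ := h
  have h0 := tate_b hT
  rw [hb, hc] at h0
  have d0 : t ≠ 0 := fun e => h0 (by rw [e]; ring)
  have d1 : t ≠ 1 := fun e => h0 (by rw [e]; ring)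
  have d2 : 2 * t ≠ 1 := fun e => h0 (by rw [e]; ring)
  rcases overQ.2.2.2.2.2 t d0 d1 d2 with e | e | e | e | e | e | e | e | ⟨e, e1⟩
  · exact Or.inl (h3 (by tauto))
  · exact Or.inl (h3 (by tauto))
  · exact Or.inl (h3 (by tauto))
  · exact Or.inl (h3 (by tauto))
  · exact Or.inr (h2 (Or.inl e))
  · exact Or.inr (h2 (Or.inr e))
  · exact Or.inl (h3 (by tauto))
  · exact Or.inl (h3 (by tauto))
  · exact Or.inl (h1 e e1).2


lemma six_dich {P : W.Point} (h : Six P X Y) :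
    ClosedIn (AddSubgroup.zmultiples P) X Y ⊥ ∨ Line P X Y := by
  obtain ⟨c, x, y, hT, h1, h2⟩ := h
  have hb := tate_b hT
  have d0 : c ≠ 0 := fun e => hb (by rw [e]; ring)
  have d1 : c ≠ -1 := fun e => hb (by rw [e]; ring)
  by_cases e1 : 3 * c = 1
  · exact Or.inr (h2 (by tauto))
  by_cases e2 : 3 * c = -1
  · exact Or.inr (h2 (by tauto))
  by_cases e3 : 5 * c = -1
  · exact Or.inr (h2 (by tauto))
  rcases overQ.1 c d0 d1 with e | e | e | e
  · exact Or.inr (h2 (by tauto))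
  · exact Or.inr (h2 (by tauto))
  · exact Or.inr (h2 (by tauto))
  · exact Or.inl (h1 e e1 e2 e3).2

lemma eight_dich {P : W.Point} (h : Eight P X Y) :
    ClosedIn (AddSubgroup.zmultiples P) X Y ⊥ ∨ Line P X Y := by
  obtain ⟨d, x, y, d0, hT, h1, h2⟩ := h
  have hb := tate_b hT
  have d1 : d ≠ 1 := fun e => hb (by rw [e]; ring)
  have d2 : 2 * d ≠ 1 := fun e => hb (by rw [e]; ring)
  rcases overQ.2.2.1 d d0 d1 d2 with e | e | e | e | e | e | e | e | e
  · exact Or.inr (h2 (by tauto))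
  · exact Or.inr (h2 (by tauto))
  · exact Or.inr (h2 (by tauto))
  · exact Or.inr (h2 (by tauto))
  · exact Or.inr (h2 (by tauto))
  · exact Or.inr (h2 (by tauto))
  · exact Or.inr (h2 (by tauto))
  · exact Or.inr (h2 (by tauto))
  · exact Or.inl (h1 e).2

end


theorem rational.{v} : Rational.{v} := by
  intro F _ _ W X Y hg P h0 h
  by_cases h3 : addOrderOf P ≤ 3
  · exact Or.inl (dich_small hg P h0 h3)
  have h' : addOrderOf P = 4 ∨ addOrderOf P = 5 ∨ addOrderOf P = 6 ∨ addOrderOf P = 7 ∨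
      addOrderOf P = 8 ∨ addOrderOf P = 9 ∨ addOrderOf P = 10 ∨ addOrderOf P = 12 := by omega
  rcases h' with e | e | e | e | e | e | e | e
  · exact four_dich (four' hg P e)
  · exact five_dich (five' hg P e)
  · exact six_dich (six hg P e)
  · exact seven_dich (seven hg P e)
  · exact eight_dich (eight hg P e)
  · exact nine_dich (nine hg P e)
  · exact ten_dich (ten hg P e)
  · exact twelve_dich (twelve hg P e)

end Pool.Agent.FK4
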