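import Pool.Agent.Lib_helper24.FAM.DefsQ
import Pool.Agent.Lib_helper24.TN.KB
import Pool.Agent.Lib_helper76.UE5.U4
import Pool.Agent.Lib_helper76.UE5.U5

set_option autoImplicit false

/-!
# Generic lemmas for elements supported on the multiples of a point of finite order
-/

open scoped TensorProduct

namespace Pool.Agent.FK4

open Pool.Agent.MK4 WeierstrassCurve.Affine
open Pool.Agent.TN (Orb)

section

variable {k : Type*} [Field k] {W : WeierstrassCurve.Affine k} {F : Type*} [Field F] [Algebra k F]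
  {X Y : F}

lemma Generic.toU (h : Generic W X Y) : UEG.Gen W X Y := ⟨h.eq, h.tr⟩

lemma toGeneric (h : UEG.Gen W X Y) : Generic W X Y := ⟨h.eq, h.tr⟩

variable [DecidableEq k] {H : AddSubgroup W.Point}

lemma reg_eq : Reg H X Y = UEG.RR H X Y := by
  unfold Reg UEG.RR UEG.inH
  congr 1
  ext z
  simp only [Set.mem_union, Set.mem_setOf_eq]
  constructor
  · rintro (h | ⟨a, b, h, h1, h2⟩)
    · exact Or.inl h
    · exact Or.inr ⟨a, b, ⟨h, h1⟩, h2⟩
  · rintro (h | ⟨a, b, ⟨h, h1⟩, h2⟩)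
    · exact Or.inl h
    · exact Or.inr ⟨a, b, h, h1, h2⟩

lemma supp_iff {f : F} : Supp H X Y f ↔ UEG.IsUn H X Y f := by
  unfold Supp UEG.IsUn
  rw [reg_eq]

lemma Supp.mul {f g : F} (hf : Supp H X Y f) (hg : Supp H X Y g) : Supp H X Y (f * g) :=
  ⟨mul_ne_zero hf.1 hg.1, mul_mem hf.2.1 hg.2.1, by rw [mul_inv]; exact mul_mem hf.2.2 hg.2.2⟩

lemma Supp.inv {f : F} (hf : Supp H X Y f) : Supp H X Y f⁻¹ :=
  ⟨inv_ne_zero hf.1, hf.2.2, by rw [inv_inv]; exact hf.2.1⟩

lemma Supp.div {f g : F} (hf : Supp H X Y f) (hg : Supp H X Y g) : Supp H X Y (f / g) := by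
  rw [div_eq_mul_inv]; exact hf.mul hg.inv

lemma supp_const {c : k} (hc : c ≠ 0) : Supp H X Y (algebraMap k F c) := by
  refine ⟨(_root_.map_ne_zero _).mpr hc, Subalgebra.algebraMap_mem _ _, ?_⟩
  rw [← map_inv₀]
  exact Subalgebra.algebraMap_mem _ _

lemma supp_one : Supp H X Y (1 : F) := by
  rw [← map_one (algebraMap k F)]
  exact supp_const one_ne_zero

lemma Supp.neg {f : F} (hf : Supp H X Y f) : Supp H X Y (-f) :=
  ⟨neg_ne_zero.mpr hf.1, neg_mem hf.2.1, by rw [inv_neg]; exact neg_mem hf.2.2⟩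

lemma Supp.sub_comm {f g : F} (hf : Supp H X Y (f - g)) : Supp H X Y (g - f) := by
  rw [← neg_sub]; exact hf.neg

lemma Supp.pow {f : F} (hf : Supp H X Y f) (n : ℕ) : Supp H X Y (f ^ n) := by
  induction n with
  | zero => rw [pow_zero]; exact supp_one
  | succ n ih => rw [pow_succ]; exact ih.mul hf

lemma Supp.zpow {f : F} (hf : Supp H X Y f) (n : ℤ) : Supp H X Y (f ^ n) := by
  obtain ⟨m, rfl | rfl⟩ := Int.eq_nat_or_neg n
  · rw [zpow_natCast]; exact hf.pow m
  · rw [zpow_neg, zpow_natCast]; exact (hf.pow m).inv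

/-! ### linear forms -/

omit [DecidableEq k] in
lemma Lin.add {f g : F} (hf : Lin k X Y f) (hg : Lin k X Y g) : Lin k X Y (f + g) := by
  obtain ⟨a, b, c, rfl⟩ := hf
  obtain ⟨a', b', c', rfl⟩ := hg
  exact ⟨a + a', b + b', c + c', by simp only [map_add]; ring⟩

omit [DecidableEq k] in
lemma Lin.smul {f : F} (r : k) (hf : Lin k X Y f) : Lin k X Y (algebraMap k F r * f) := by
  obtain ⟨a, b, c, rfl⟩ := hf
  exact ⟨r * a, r * b, r * c, by simp only [map_mul]; ring⟩

omit [DecidableEq k] in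
lemma Lin.neg {f : F} (hf : Lin k X Y f) : Lin k X Y (-f) := by
  have := hf.smul (-1)
  rwa [map_neg, map_one, neg_one_mul] at this

omit [DecidableEq k] in
lemma Lin.sub {f g : F} (hf : Lin k X Y f) (hg : Lin k X Y g) : Lin k X Y (f - g) := by
  rw [sub_eq_add_neg]; exact hf.add hg.neg

omit [DecidableEq k] in
lemma lin_const (c : k) : Lin k X Y (algebraMap k F c) := ⟨c, 0, 0, by simp⟩

omit [DecidableEq k] in
lemma lin_X : Lin k X Y X := ⟨0, 1, 0, by simp⟩

omit [DecidableEq k] in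
lemma lin_Y : Lin k X Y Y := ⟨0, 0, 1, by simp⟩

/-! ### quotients of lines -/

/-- the S₃-orbit -/
lemma LineQ.orb {u f : F} (hu : LineQ H X Y u) (h : Orb u f) : LineQ H X Y f := by
  obtain ⟨l, m, h1, h2, h3, h4, h5, rfl⟩ := hu
  have hl := h3.1
  have hm := h4.1
  have hd := h5.1
  have hd' : l - m ≠ 0 := by
    intro h'
    apply hd
    rw [← neg_sub, h', neg_zero]
  rcases h with rfl | rfl | rfl | rfl | rfl | rfl
  · exact ⟨l, m, h1, h2, h3, h4, h5, rfl⟩
  · refine ⟨m - l, m, h2.sub h1, h2, h5, h4, ?_, ?_⟩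
    · rw [sub_sub_cancel]; exact h3
    · field_simp
  · refine ⟨m, l, h2, h1, h4, h3, h5.sub_comm, ?_⟩
    rw [one_div, inv_div]
  · refine ⟨l - m, l, h1.sub h2, h1, h5.sub_comm, h3, ?_, ?_⟩
    · rw [sub_sub_cancel]; exact h4
    · field_simp
  · refine ⟨m, m - l, h2, h2.sub h1, h4, h5, ?_, ?_⟩
    · rw [sub_right_comm, sub_self, zero_sub]; exact h3.neg
    · have : 1 - l / m = (m - l) / m := by field_simp
      rw [this, one_div, inv_div]
  · refine ⟨l, l - m, h1, h1.sub h2, h3, h5.sub_comm, ?_, ?_⟩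
    · rw [sub_right_comm, sub_self, zero_sub]; exact h4.neg
    · have : l / m - 1 = (l - m) / m := by field_simp
      rw [this, div_div_div_cancel_right₀ hm]

/-- the cross ratios of a function which is the quotient of two lines -/
lemma LineQ.of_two {Z L T : F} (hL : Lin k X Y L) (hT : Lin k X Y T) (sT : Supp H X Y T)
    (hZ : Z = L / T) {a : k} (ha : a ≠ 0) (s0 : Supp H X Y Z) (sa : Supp H X Y (Z - algebraMap k F a)) :
    LineQ H X Y (Z / algebraMap k F a) := by
  have hT0 := sT.1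
  have hA : algebraMap k F a ≠ 0 := (_root_.map_ne_zero _).mpr ha
  have eL : L = Z * T := by rw [hZ]; field_simp
  refine ⟨L, algebraMap k F a * T, hL, hT.smul a, ?_, (supp_const ha).mul sT, ?_, ?_⟩
  · rw [eL]; exact s0.mul sT
  · have : algebraMap k F a * T - L = -((Z - algebraMap k F a) * T) := by rw [eL]; ring
    rw [this]
    exact (sa.mul sT).neg
  · rw [eL]; field_simp

lemma LineQ.of_three {Z L T : F} (hL : Lin k X Y L) (hT : Lin k X Y T) (sT : Supp H X Y T)
    (hZ : Z = L / T) {a b c : k} (hab : a ≠ b) (hbc : b ≠ c) (hac : a ≠ c)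
    (sa : Supp H X Y (Z - algebraMap k F a)) (sb : Supp H X Y (Z - algebraMap k F b))
    (sc : Supp H X Y (Z - algebraMap k F c)) :
    LineQ H X Y ((Z - algebraMap k F a) * algebraMap k F (b - c) /
      ((Z - algebraMap k F c) * algebraMap k F (b - a))) := by
  have hT0 := sT.1
  have eL : L = Z * T := by rw [hZ]; field_simp
  have h1 : b - a ≠ 0 := sub_ne_zero.mpr (Ne.symm hab)
  have h2 : b - c ≠ 0 := sub_ne_zero.mpr hbc
  have h3 : c - a ≠ 0 := sub_ne_zero.mpr (Ne.symm hac)
  refine ⟨algebraMap k F (b - c) * (L - algebraMap k F a * T),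
    algebraMap k F (b - a) * (L - algebraMap k F c * T), (hL.sub (hT.smul a)).smul _,
    (hL.sub (hT.smul c)).smul _, ?_, ?_, ?_, ?_⟩
  · refine (supp_const h2).mul ?_
    have : L - algebraMap k F a * T = (Z - algebraMap k F a) * T := by rw [eL]; ring
    rw [this]
    exact sa.mul sT
  · refine (supp_const h1).mul ?_
    have : L - algebraMap k F c * T = (Z - algebraMap k F c) * T := by rw [eL]; ring
    rw [this]
    exact sc.mul sT
  · have : algebraMap k F (b - a) * (L - algebraMap k F c * T) -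
        algebraMap k F (b - c) * (L - algebraMap k F a * T) =
        algebraMap k F (c - a) * ((Z - algebraMap k F b) * T) := by
      rw [eL]; simp only [map_sub]; ring
    rw [this]
    exact (supp_const h3).mul (sb.mul sT)
  · rw [eL]
    have g1 : algebraMap k F (b - a) ≠ 0 := (_root_.map_ne_zero _).mpr h1
    have g3 : Z - algebraMap k F c ≠ 0 := sc.1
    have : Z * T - algebraMap k F c * T = (Z - algebraMap k F c) * T := by ring
    rw [this]
    field_simp

lemma LineQ.supp {f : F} (h : LineQ H X Y f) : Supp H X Y f ∧ Supp H X Y (1 - f) := by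
  obtain ⟨l, m, h1, h2, h3, h4, h5, rfl⟩ := h
  refine ⟨h3.div h4, ?_⟩
  have hm := h4.1
  have : 1 - l / m = (m - l) / m := by field_simp
  rw [this]
  exact h5.div h4

/-- the unit equation from one implication -/
lemma unitEq_of (h : ∀ f : F, Supp H X Y f → Supp H X Y (1 - f) →
    (∃ c : k, f = algebraMap k F c) ∨ LineQ H X Y f) : UnitEq H X Y := by
  intro f
  constructor
  · rintro ⟨h1, h2⟩
    rcases h f h1 h2 with ⟨c, rfl⟩ | h3
    · left
      refine ⟨c, ?_, ?_, rfl⟩
      · rintro rfl; exact h1.1 (map_zero _)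
      · rintro rfl; exact h2.1 (by rw [map_one, sub_self])
    · exact Or.inr h3
  · rintro (⟨c, h0, h1, rfl⟩ | h3)
    · refine ⟨supp_const h0, ?_⟩
      have : 1 - algebraMap k F c = algebraMap k F (1 - c) := by rw [map_sub, map_one]
      rw [this]
      exact supp_const (sub_ne_zero.mpr (Ne.symm h1))
    · exact h3.supp

/-! ### the span -/

/-- the span in terms of a description of the units -/
lemma sp_eq {U : F → Prop} (hU : ∀ f, Supp H X Y f ↔ U f) :
    Sp H X Y = Submodule.span ℚ {z | ∃ (f : F) (u : FT F), U f ∧ U (1 - f) ∧ z = hk (sy f) u} := by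
  have h := TN.span_hk (F := F) {f | U f ∧ U (1 - f)}
  unfold Sp
  have e1 : {z : HK F | ∃ (f : F) (u : FT F), f ∈ {f | U f ∧ U (1 - f)} ∧ z = hk (sy f) u} =
      {z | ∃ (f : F) (u : FT F), U f ∧ U (1 - f) ∧ z = hk (sy f) u} := by
    ext z
    constructor
    · rintro ⟨f, u, ⟨h1, h2⟩, h3⟩
      exact ⟨f, u, h1, h2, h3⟩
    · rintro ⟨f, u, h1, h2, h3⟩
      exact ⟨f, u, ⟨h1, h2⟩, h3⟩
  have e2 : {z : HK F | ∃ (f u : F), f ∈ {f | U f ∧ U (1 - f)} ∧ z = hk (sy f) (lg u)} =
      {z | ∃ f u : F, Supp H X Y f ∧ Supp H X Y (1 - f) ∧ z = hk (sy f) (lg u)} := by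
    ext z
    constructor
    · rintro ⟨f, u, ⟨h1, h2⟩, h3⟩
      exact ⟨f, u, (hU _).mpr h1, (hU _).mpr h2, h3⟩
    · rintro ⟨f, u, h1, h2, h3⟩
      exact ⟨f, u, ⟨(hU _).mp h1, (hU _).mp h2⟩, h3⟩
  rw [e1, e2] at h
  exact h.symm

end

/-! ### change of coordinates -/

section chg

variable {k : Type*} [Field k] {W : WeierstrassCurve.Affine k} {F : Type*} [Field F] [Algebra k F]
  {X Y : F} {u r s t : k}

lemma lin_chg (hu : u ≠ 0) {f : F} :
    Lin k (UEG.nx F u r X) (UEG.ny F u r s t X Y) f ↔ Lin k X Y f := by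
  have eX := UEG.X_eq (F := F) (r := r) hu X
  have eY := UEG.Y_eq (F := F) (r := r) (s := s) (t := t) hu X Y
  constructor
  · rintro ⟨a, b, c, rfl⟩
    have hx : Lin k X Y (UEG.nx F u r X) := by
      have : UEG.nx F u r X = algebraMap k F ((u ^ 2)⁻¹) * (X - algebraMap k F r) := by
        unfold UEG.nx
        rw [map_inv₀, map_pow]
        try ring
      rw [this]
      exact (lin_X.sub (lin_const r)).smul _
    have hy : Lin k X Y (UEG.ny F u r s t X Y) := by
      have hU : algebraMap k F u ≠ 0 := (_root_.map_ne_zero _).mpr hu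
      have : UEG.ny F u r s t X Y = algebraMap k F ((u ^ 3)⁻¹) *
          (Y - algebraMap k F (u ^ 2 * s) * UEG.nx F u r X - algebraMap k F t) := by
        rw [map_inv₀, map_pow, map_mul, map_pow]
        rw [eq_inv_mul_iff_mul_eq₀ (pow_ne_zero 3 hU)]
        linear_combination -eY
      rw [this]
      exact ((lin_Y.sub (hx.smul _)).sub (lin_const t)).smul _
    exact ((lin_const a).add (hx.smul b)).add (hy.smul c)
  · rintro ⟨a, b, c, rfl⟩
    have hx : Lin k (UEG.nx F u r X) (UEG.ny F u r s t X Y) X := by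
      refine ⟨r, u ^ 2, 0, ?_⟩
      rw [map_zero, zero_mul, add_zero, map_pow]
      linear_combination eX
    have hy : Lin k (UEG.nx F u r X) (UEG.ny F u r s t X Y) Y := by
      refine ⟨t, u ^ 2 * s, u ^ 3, ?_⟩
      rw [map_mul, map_pow, map_pow]
      linear_combination eY
    exact ((lin_const a).add (hx.smul b)).add (hy.smul c)

end chg

end Pool.Agent.FK4
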