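import Pool.Agent.Lib_helper72.KC.P

/-!
# Explicit elements: closedness from exponents, the coordinates with respect to a certificate
-/

set_option autoImplicit false
set_option linter.unusedSectionVars false
set_option linter.unusedVariables false

open scoped TensorProduct

namespace Pool.Agent.KC72

open TN MK4

section Ext

variable {V : Type*} [AddCommGroup V] [Module ℚ V]

/-- the antisymmetrized product of three vectors -/
def d6 {R : Type*} [CommRing R] (b a y : ℕ → R) (i j l : ℕ) : R :=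
  b i * a j * y l - b i * y j * a l - a i * b j * y l + a i * y j * b l + y i * b j * a l -
    y i * a j * b l

lemma tri_expand {n : ℕ} (g : Fin n → V) (b a y : ℕ → ℚ) :
    (6 : ℚ) • (ExteriorAlgebra.ι ℚ (∑ i : Fin n, b i • g i) *
      ExteriorAlgebra.ι ℚ (∑ i : Fin n, a i • g i) * ExteriorAlgebra.ι ℚ (∑ i : Fin n, y i • g i)) =
    ∑ i : Fin n, ∑ j : Fin n, ∑ l : Fin n, d6 b a y i j l •
      (ExteriorAlgebra.ι ℚ (g i) * ExteriorAlgebra.ι ℚ (g j) * ExteriorAlgebra.ι ℚ (g l)) := by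
  have S : ∀ b a y : ℕ → ℚ, ExteriorAlgebra.ι ℚ (∑ i : Fin n, b i • g i) *
      ExteriorAlgebra.ι ℚ (∑ i : Fin n, a i • g i) *
      ExteriorAlgebra.ι ℚ (∑ i : Fin n, y i • g i) =
      ∑ i : Fin n, ∑ j : Fin n, ∑ l : Fin n, (b i * a j * y l) •
        (ExteriorAlgebra.ι ℚ (g i) * ExteriorAlgebra.ι ℚ (g j) * ExteriorAlgebra.ι ℚ (g l)) := by
    intro b a y
    simp only [map_sum, map_smul]
    rw [Finset.sum_mul_sum, Finset.sum_mul]
    refine Finset.sum_congr rfl fun i _ => ?_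
    rw [Finset.sum_mul_sum]
    refine Finset.sum_congr rfl fun j _ => Finset.sum_congr rfl fun l _ => ?_
    rw [smul_mul_smul_comm, smul_mul_smul_comm]
  have sw : ∀ u v : V, ExteriorAlgebra.ι ℚ u * ExteriorAlgebra.ι ℚ v =
      -(ExteriorAlgebra.ι ℚ v * ExteriorAlgebra.ι ℚ u) := by
    intro a b
    rw [eq_neg_iff_add_eq_zero]
    exact ExteriorAlgebra.ι_add_mul_swap a b
  have h : ∑ i : Fin n, ∑ j : Fin n, ∑ l : Fin n, d6 b a y i j l •
      (ExteriorAlgebra.ι ℚ (g i) * ExteriorAlgebra.ι ℚ (g j) * ExteriorAlgebra.ι ℚ (g l)) =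
      (∑ i : Fin n, ∑ j : Fin n, ∑ l : Fin n, (b i * a j * y l) •
        (ExteriorAlgebra.ι ℚ (g i) * ExteriorAlgebra.ι ℚ (g j) * ExteriorAlgebra.ι ℚ (g l))) -
      (∑ i : Fin n, ∑ j : Fin n, ∑ l : Fin n, (b i * y j * a l) •
        (ExteriorAlgebra.ι ℚ (g i) * ExteriorAlgebra.ι ℚ (g j) * ExteriorAlgebra.ι ℚ (g l))) -
      (∑ i : Fin n, ∑ j : Fin n, ∑ l : Fin n, (a i * b j * y l) •
        (ExteriorAlgebra.ι ℚ (g i) * ExteriorAlgebra.ι ℚ (g j) * ExteriorAlgebra.ι ℚ (g l))) +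
      (∑ i : Fin n, ∑ j : Fin n, ∑ l : Fin n, (a i * y j * b l) •
        (ExteriorAlgebra.ι ℚ (g i) * ExteriorAlgebra.ι ℚ (g j) * ExteriorAlgebra.ι ℚ (g l))) +
      (∑ i : Fin n, ∑ j : Fin n, ∑ l : Fin n, (y i * b j * a l) •
        (ExteriorAlgebra.ι ℚ (g i) * ExteriorAlgebra.ι ℚ (g j) * ExteriorAlgebra.ι ℚ (g l))) -
      (∑ i : Fin n, ∑ j : Fin n, ∑ l : Fin n, (y i * a j * b l) •
        (ExteriorAlgebra.ι ℚ (g i) * ExteriorAlgebra.ι ℚ (g j) * ExteriorAlgebra.ι ℚ (g l))) := by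
    simp only [← Finset.sum_sub_distrib, ← Finset.sum_add_distrib]
    refine Finset.sum_congr rfl fun i _ => Finset.sum_congr rfl fun j _ =>
      Finset.sum_congr rfl fun l _ => ?_
    unfold d6
    module
  rw [h, ← S, ← S, ← S, ← S, ← S, ← S]
  set P := ∑ i : Fin n, b i • g i
  set Q := ∑ i : Fin n, a i • g i
  set R := ∑ i : Fin n, y i • g i
  have e1 : ExteriorAlgebra.ι ℚ P * ExteriorAlgebra.ι ℚ R * ExteriorAlgebra.ι ℚ Q =
      -(ExteriorAlgebra.ι ℚ P * ExteriorAlgebra.ι ℚ Q * ExteriorAlgebra.ι ℚ R) := by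
    rw [mul_assoc, sw R Q, mul_neg, mul_assoc]
  have e2 : ExteriorAlgebra.ι ℚ Q * ExteriorAlgebra.ι ℚ P * ExteriorAlgebra.ι ℚ R =
      -(ExteriorAlgebra.ι ℚ P * ExteriorAlgebra.ι ℚ Q * ExteriorAlgebra.ι ℚ R) := by
    rw [sw Q P, neg_mul]
  have e3 : ExteriorAlgebra.ι ℚ Q * ExteriorAlgebra.ι ℚ R * ExteriorAlgebra.ι ℚ P =
      ExteriorAlgebra.ι ℚ P * ExteriorAlgebra.ι ℚ Q * ExteriorAlgebra.ι ℚ R := by
    rw [mul_assoc, sw R P, mul_neg, ← mul_assoc, e2, neg_neg]
  have e4 : ExteriorAlgebra.ι ℚ R * ExteriorAlgebra.ι ℚ P * ExteriorAlgebra.ι ℚ Q =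
      ExteriorAlgebra.ι ℚ P * ExteriorAlgebra.ι ℚ Q * ExteriorAlgebra.ι ℚ R := by
    rw [sw R P, neg_mul, e1, neg_neg]
  have e5 : ExteriorAlgebra.ι ℚ R * ExteriorAlgebra.ι ℚ Q * ExteriorAlgebra.ι ℚ P =
      -(ExteriorAlgebra.ι ℚ P * ExteriorAlgebra.ι ℚ Q * ExteriorAlgebra.ι ℚ R) := by
    rw [sw R Q, neg_mul, e3]
  rw [e1, e2, e3, e4, e5]
  module

end Ext

/-- the term `{f} ⊗ u`, where `f` is the `s`-th function of the `c`-th class -/
structure Tm where
  /-- the class -/
  c : ℕ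
  /-- the function -/
  s : ℕ
  /-- the exponents of `u` -/
  u : List ℤ

/-- the terms are well formed -/
def okT (n : ℕ) (cls : List (Mo × Mo)) (L : List Tm) : Bool :=
  L.all fun t => decide (t.c < cls.length) && decide (t.u.length = n)

/-- the coordinate `(i, j, l)` of the differential -/
def dco (cls : List (Mo × Mo)) (i j l : ℕ) : List Tm → ℤ
  | [] => 0
  | t :: L => d6 (fun i => (co cls (t.c, t.s)).2.getD i 0) (fun i => (oo cls (t.c, t.s)).2.getD i 0)
      (fun i => t.u.getD i 0) i j l + dco cls i j l L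

/-- the differential vanishes -/
def chkD (n : ℕ) (cls : List (Mo × Mo)) (L : List Tm) : Bool :=
  (List.range n).all fun i => (List.range n).all fun j => (List.range n).all fun l =>
    decide (dco cls i j l L = 0)

/-- the coordinates with respect to the basis of a certificate -/
def xiv (C : Cert) : List Tm → List ℤ
  | [] => []
  | t :: L => axpy (sg6 t.s) (outer (C.rho.getD t.c default).2.2 t.u) (xiv C L)

/-- the coordinates are those of the class of the certificate, times `a` -/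
def chkX (C : Cert) (a : ℤ) (L : List Tm) : Bool :=
  (L.all fun t => decide ((C.rho.getD t.c default).1 = 1)) && isZ (axpy (-a) C.xi (xiv C L))

section El

variable {F : Type*} [Field F]

/-- `∑ {f} ⊗ u` -/
noncomputable def zt (g : List F) (cls : List (Mo × Mo)) : List Tm → HK F
  | [] => 0
  | t :: L => hk (sy (ev g (oo cls (t.c, t.s)))) (lg (evl g t.u)) + zt g cls L

lemma dE_zt [CharZero F] {n : ℕ} {G : Fin n → F} (hG : ∀ i, G i ≠ 0) {cls : List (Mo × Mo)}
    (H : Sols (List.ofFn G) cls) {L : List Tm} (hL : okT n cls L = true) :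
    (6 : ℚ) • dE F (zt (List.ofFn G) cls L) = ∑ i : Fin n, ∑ j : Fin n, ∑ l : Fin n,
      (dco cls i j l L : ℚ) • (ExteriorAlgebra.ι ℚ (lg (G i)) * ExteriorAlgebra.ι ℚ (lg (G j)) *
        ExteriorAlgebra.ι ℚ (lg (G l))) := by
  have hg : ∀ x ∈ List.ofFn G, x ≠ 0 := by
    intro x hx
    rw [List.mem_ofFn] at hx
    obtain ⟨i, rfl⟩ := hx
    exact hG i
  have hmap : (List.ofFn G).map lg = List.ofFn (fun i => lg (G i)) := by
    rw [List.map_ofFn]; rfl
  induction L with
  | nil => simp [zt, dco]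
  | cons t L ih =>
    unfold okT at hL
    rw [List.all_cons, Bool.and_eq_true, Bool.and_eq_true] at hL
    obtain ⟨⟨h1, h2⟩, h3⟩ := hL
    have h1' := of_decide_eq_true h1
    have ih' := ih h3
    have hS := oo_co hg H (p := (t.c, t.s)) h1'
    have e1 : (1 : F) - ev (List.ofFn G) (oo cls (t.c, t.s)) =
        ev (List.ofFn G) (co cls (t.c, t.s)) := by linear_combination -hS
    rw [zt, map_add, dE_sy, e1, smul_add, ih', lg_ev hg, lg_ev hg, lg_evl hg, hmap, pl_ofFn,
      pl_ofFn, pl_ofFn, tri_expand (fun i => lg (G i))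
        (fun i => (((co cls (t.c, t.s)).2.getD i 0 : ℤ) : ℚ))
        (fun i => (((oo cls (t.c, t.s)).2.getD i 0 : ℤ) : ℚ))
        (fun i => ((t.u.getD i 0 : ℤ) : ℚ)), ← Finset.sum_add_distrib]
    refine Finset.sum_congr rfl fun i _ => ?_
    rw [← Finset.sum_add_distrib]
    refine Finset.sum_congr rfl fun j _ => ?_
    rw [← Finset.sum_add_distrib]
    refine Finset.sum_congr rfl fun l _ => ?_
    rw [← add_smul]
    congr 1
    unfold d6
    rw [dco]
    unfold d6
    push_cast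
    rfl

/-- **closedness from exponents** -/
theorem zt_closed [CharZero F] {n : ℕ} {G : Fin n → F} (hG : ∀ i, G i ≠ 0)
    {cls : List (Mo × Mo)} (H : Sols (List.ofFn G) cls) {L : List Tm} (hL : okT n cls L = true)
    (hD : chkD n cls L = true) : Closed (zt (List.ofFn G) cls L) := by
  rw [closed_dE]
  have h := dE_zt hG H hL
  have h0 : ∀ i j l : Fin n, dco cls i j l L = 0 := by
    intro i j l
    unfold chkD at hD
    rw [List.all_eq_true] at hD
    have h1 := hD i (List.mem_range.mpr i.isLt)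
    rw [List.all_eq_true] at h1
    have h2 := h1 j (List.mem_range.mpr j.isLt)
    rw [List.all_eq_true] at h2
    exact of_decide_eq_true (h2 l (List.mem_range.mpr l.isLt))
  simp only [h0, Int.cast_zero, zero_smul, Finset.sum_const_zero] at h
  rcases smul_eq_zero.mp h with h1 | h1
  · exact absurd h1 (by norm_num)
  · exact h1

variable {k : Type*} [Field k] [Algebra k F]

/-- the coordinates of an explicit element -/
theorem zt_mkQ [CharZero F] (C : Cert) {n : ℕ} (hn : C.n = n) {G : Fin n → F}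
    (hG : ∀ i, G i ≠ 0) (h1 : C.chk1 = true) (h2 : ∀ c < C.cls.length, C.chk2 c = true)
    (hk : ∀ x ∈ (List.ofFn G).drop C.r, ∃ c : k, x = algebraMap k F c)
    (H : Sols (List.ofFn G) C.cls) {L : List Tm} (hL : okT n C.cls L = true)
    (hr : (L.all fun t => decide ((C.rho.getD t.c default).1 = 1)) = true) :
    (KC k F).mkQ (zt (List.ofFn G) C.cls L) = pl (EB C k (List.ofFn G)) (xiv C L) := by
  have hg : ∀ x ∈ List.ofFn G, x ≠ 0 := by
    intro x hx
    rw [List.mem_ofFn] at hx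
    obtain ⟨i, rfl⟩ := hx
    exact hG i
  induction L with
  | nil => simp [zt, xiv]
  | cons t L ih =>
    unfold okT at hL
    rw [List.all_cons, Bool.and_eq_true, Bool.and_eq_true] at hL
    obtain ⟨⟨hc, hu⟩, h3⟩ := hL
    rw [List.all_cons, Bool.and_eq_true] at hr
    have hc' := of_decide_eq_true hc
    have hu' := of_decide_eq_true hu
    have hr' := of_decide_eq_true hr.1
    rw [zt, map_add, ih h3 hr.2, xiv, pl_axpy]
    congr 1
    have e1 : pl (EB C k (List.ofFn G)) (outer (C.rho.getD t.c default).2.2 t.u) =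
        TT F k (sy (ev (List.ofFn G) (C.cls.getD t.c default).1))
          (pl ((List.ofFn G).map lg) t.u) := by
      unfold EB
      rw [pl_outer _ _ _ _ (by rw [hu']; simp)]
      rw [← (rho_spec C h1 hg hk H (h2 _ hc')).2, LinearMap.smul_apply, EW_getD hc', hr']
      simp
    have e2 : sy (ev (List.ofFn G) (oo C.cls (t.c, t.s))) =
        (sg6 t.s : ℚ) • sy (ev (List.ofFn G) (C.cls.getD t.c default).1) :=
      orb6_sy hg (H.getD hc') t.s
    rw [e1, ← TT_apply (k := k), e2, map_smul, LinearMap.smul_apply, lg_evl hg]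

/-- an explicit element is a multiple of the class of the certificate -/
theorem zt_xi [CharZero F] (C : Cert) {n : ℕ} (hn : C.n = n) {G : Fin n → F}
    (hG : ∀ i, G i ≠ 0) (hC : Ok C)
    (hk : ∀ x ∈ (List.ofFn G).drop C.r, ∃ c : k, x = algebraMap k F c)
    (H : Sols (List.ofFn G) C.cls) {L : List Tm} (hL : okT n C.cls L = true) {a : ℤ}
    (hX : chkX C a L = true) :
    (KC k F).mkQ (zt (List.ofFn G) C.cls L) = (a : ℚ) • pl (EB C k (List.ofFn G)) C.xi := by
  unfold chkX at hX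
  rw [Bool.and_eq_true] at hX
  obtain ⟨hX1, hX2⟩ := hX
  rw [zt_mkQ C hn hG hC.c1 hC.c2 hk H hL hX1]
  have h := pl_isZ (EB C k (List.ofFn G)) hX2
  rw [pl_axpy] at h
  push_cast at h
  linear_combination (norm := module) h

end El

end Pool.Agent.KC72
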