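import Pool.Agent.Lib_helper24.FAM.Cl
import Pool.Agent.Lib_helper24.FAM.LK
import Pool.Agent.Lib_helper72.KC.W

/-!
# The clauses of the final theorem from a certificate
-/

set_option autoImplicit false
set_option linter.unusedSectionVars false
set_option linter.unusedVariables false

open scoped TensorProduct WithZero

namespace Pool.Agent.FK4

open Pool.Agent.MK4 WeierstrassCurve.Affine Pool.Agent.KC72

section cert

variable {k : Type*} [Field k] [DecidableEq k] {W W' : WeierstrassCurve.Affine k} {F : Type*}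
  [Field F] [Algebra k F] {X Y x y : F} {H : AddSubgroup W.Point} {H' : AddSubgroup W'.Point}

lemma supp_evl' {g : List F} (hg : ∀ z ∈ g, Supp H X Y z) (a : List ℤ) :
    Supp H X Y (evl g a) := by
  induction g generalizing a with
  | nil => rw [evl_nil_left]; exact supp_one
  | cons z g ih =>
    cases a with
    | nil => rw [evl_nil_right]; exact supp_one
    | cons n a =>
      rw [evl_cons]
      exact ((hg z (by simp)).zpow n).mul (ih (fun y hy => hg y (by simp [hy])) a)

lemma supp_ev' {g : List F} (hg : ∀ z ∈ g, Supp H X Y z) (a : Mo) : Supp H X Y (ev g a) := by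
  unfold ev
  rcases a with ⟨_ | _, a⟩
  · rw [cond_false, one_mul]; exact supp_evl' hg a
  · rw [cond_true, neg_one_mul]; exact (supp_evl' hg a).neg

/-- the explicit elements are in the span -/
lemma zt_mem' {g : List F} (hg : ∀ z ∈ g, Supp H X Y z) {cls : List (Mo × Mo)} (hS : Sols g cls)
    {n : ℕ} {L : List Tm} (hL : okT n cls L = true) : zt g cls L ∈ Sp H X Y := by
  induction L with
  | nil => exact Submodule.zero_mem _
  | cons t L ih =>
    unfold okT at hL
    rw [List.all_cons, Bool.and_eq_true, Bool.and_eq_true] at hL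
    obtain ⟨⟨h1, h2⟩, h3⟩ := hL
    have h1' := of_decide_eq_true h1
    refine Submodule.add_mem _ (Submodule.subset_span ⟨_, _, supp_ev' hg _, ?_, rfl⟩) (ih h3)
    have h4 := oo_co (fun x hx => (hg x hx).1) hS (p := (t.c, t.s)) h1'
    have h5 : 1 - ev g (oo cls (t.c, t.s)) = ev g (co cls (t.c, t.s)) := by
      linear_combination -h4
    rw [h5]
    exact supp_ev' hg _

variable [CharZero k]

/-- the closed elements from the unit equation and a certificate -/
theorem closed_cert (C : Cert) (hC : Ok C) {n r : ℕ} (hn : C.n = n) (hr : C.r = r)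
    {cls : List (Mo × Mo)} (hcl : C.cls = cls) {G : Fin n → F} (hrn : r ≤ n)
    (hsupp : ∀ i, Supp H' x y (G i))
    (hk : ∀ i : Fin n, r ≤ i.val → ∃ c : k, G i = algebraMap k F c)
    (hM : ∀ (e : Fin r → ℤ) (c : k), c ≠ 0 →
      ∏ i, G (Fin.castLE hrn i) ^ e i = algebraMap k F c → e = 0)
    (hc : ∀ e : Fin n → ℤ, (∀ i : Fin n, i.val < r → e i = 0) → ∏ i, G i ^ e i = 1 → e = 0)
    (hs : Sols (List.ofFn G) cls)
    (hU : ∀ f, Supp H' x y f → Supp H' x y (1 - f) → (∃ c : k, f = algebraMap k F c) ∨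
      ∃ p ∈ cls, TN.Orb (ev (List.ofFn G) p.1) f) {z : HK F} (hz : z ∈ Sp H' x y)
    (hcz : Closed z) :
    ∃ β : ℚ, (TN.KC k F).mkQ z = β • pl (EB C k (List.ofFn G)) C.xi := by
  have : CharZero F := charZero_of_injective_algebraMap (algebraMap k F).injective
  have hG : ∀ i, G i ≠ 0 := fun i => (hsupp i).1
  have hI := hI_of (k := k) hrn G hG hk hM
  have hJ := hJ_of (k := k) hrn G hG hI hc
  rw [sp_eq (U := Supp H' x y) (fun f => Iff.rfl)] at hz
  exact closed_of_cert' C hC hn hr hcl hG hk hI hJ hs (Supp H' x y) hU hz hcz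

/-- the clause `Line` from a certificate -/
theorem line_cert (hg : Generic W X Y) {P : W.Point}
    (hS : Same (AddSubgroup.zmultiples P) X Y H' x y)
    (C : Cert) (hC : Ok C) {n r : ℕ} (hn : C.n = n) (hr : C.r = r)
    {cls : List (Mo × Mo)} (hcl : C.cls = cls) {G : Fin n → F} (hrn : r ≤ n)
    (hsupp : ∀ i, Supp H' x y (G i))
    (hk : ∀ i : Fin n, r ≤ i.val → ∃ c : k, G i = algebraMap k F c)
    (hM : ∀ (e : Fin r → ℤ) (c : k), c ≠ 0 →
      ∏ i, G (Fin.castLE hrn i) ^ e i = algebraMap k F c → e = 0)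
    (hc : ∀ e : Fin n → ℤ, (∀ i : Fin n, i.val < r → e i = 0) → ∏ i, G i ^ e i = 1 → e = 0)
    (hs : Sols (List.ofFn G) cls)
    (hU : ∀ f, Supp H' x y f → Supp H' x y (1 - f) → (∃ c : k, f = algebraMap k F c) ∨
      ∃ p ∈ cls, TN.Orb (ev (List.ofFn G) p.1) f)
    {L : List Tm} (hL : okT n cls L = true) (hD : chkD n cls L = true) {a : ℤ} (ha : a ≠ 0)
    (hX : chkX C a L = true) {ξ : HK F} (hξ : ξ = zt (List.ofFn G) cls L)
    (hun : Unram k ξ) (hnz : RegNonZero k X Y ξ) : Line P X Y := by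
  have : CharZero F := charZero_of_injective_algebraMap (algebraMap k F).injective
  have hG : ∀ i, G i ≠ 0 := fun i => (hsupp i).1
  have hgl : ∀ z ∈ List.ofFn G, Supp H' x y z := by
    intro z hz
    rw [List.mem_ofFn] at hz
    obtain ⟨i, rfl⟩ := hz
    exact hsupp i
  refine ⟨ξ, ⟨?_, ?_, hun⟩, closedIn_line hg hun ?_, hnz⟩
  · rw [hS.sp, hξ]
    exact zt_mem' hgl hs hL
  · rw [hξ]
    exact zt_closed hG hs hL hD
  · intro z hz hcz
    rw [hS.sp] at hz
    obtain ⟨β, hβ⟩ := closed_cert C hC hn hr hcl hrn hsupp hk hM hc hs hU hz hcz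
    subst hcl
    have h1 := zt_xi (k := k) C hn hG hC (by
      intro z hz
      rw [List.mem_drop_iff_getElem] at hz
      obtain ⟨i, hi, rfl⟩ := hz
      rw [List.getElem_ofFn]
      exact hk _ (by simp [hr])) hs hL hX
    rw [← hξ] at h1
    have ha' : (a : ℚ) ≠ 0 := by exact_mod_cast ha
    refine ⟨β / a, ?_⟩
    rw [← TN.KC_eq, ← Submodule.ker_mkQ (TN.KC k F), LinearMap.mem_ker, map_sub, map_smul, h1,
      hβ, smul_smul, div_mul_cancel₀ _ ha', sub_self]

/-- only the constants, from a certificate of closed dimension zero -/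
theorem only_cert (C : Cert) (hC : Ok C) {n r : ℕ} (hn : C.n = n) (hr : C.r = r)
    {cls : List (Mo × Mo)} (hcl : C.cls = cls) (hxi : isZ C.xi = true) {G : Fin n → F}
    (hrn : r ≤ n) (hsupp : ∀ i, Supp H' x y (G i))
    (hk : ∀ i : Fin n, r ≤ i.val → ∃ c : k, G i = algebraMap k F c)
    (hM : ∀ (e : Fin r → ℤ) (c : k), c ≠ 0 →
      ∏ i, G (Fin.castLE hrn i) ^ e i = algebraMap k F c → e = 0)
    (hc : ∀ e : Fin n → ℤ, (∀ i : Fin n, i.val < r → e i = 0) → ∏ i, G i ^ e i = 1 → e = 0)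
    (hs : Sols (List.ofFn G) cls)
    (hU : ∀ f, Supp H' x y f → Supp H' x y (1 - f) → (∃ c : k, f = algebraMap k F c) ∨
      ∃ p ∈ cls, TN.Orb (ev (List.ofFn G) p.1) f) : OnlyConst H' x y := by
  intro z hz hcz
  obtain ⟨β, hβ⟩ := closed_cert C hC hn hr hcl hrn hsupp hk hM hc hs hU hz hcz
  rw [pl_isZ _ hxi, smul_zero] at hβ
  rw [← TN.KC_eq, ← Submodule.ker_mkQ (TN.KC k F), LinearMap.mem_ker, hβ]

end cert

end Pool.Agent.FK4
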