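import Pool.Agent.Lib_helper24.FAM.LK
import Pool.Agent.Lib_helper24.FAM.C61
import Pool.Agent.Lib_helper24.FAM.C62
import Pool.Agent.Lib_helper24.FAM.C63
import Pool.Agent.Lib_helper54.FAM.Xi6
import Pool.Agent.Lib_helper60.N6.L

/-!
# The three special curves with a point of order six: the explicit classes as monomials
-/

set_option autoImplicit false
set_option linter.unusedSectionVars false
set_option linter.unusedVariables false

open scoped TensorProduct

namespace Pool.Agent.FK4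

open Pool.Agent.MK4 Pool.Agent.TN Pool.Agent.KC72 Pool.Agent.N6

section tup

variable {F : Type*} [Field F] {b c x y A B C D E : F}

/-- the five units at a point of the curve -/
structure Q6 (b c x y A B C D E : F) : Prop where
  hA : x = A
  hB : x - b = B
  hC : x - c = C
  hD : y = D
  hE : y - c * x = E
  A0 : A ≠ 0
  B0 : B ≠ 0
  C0 : C ≠ 0
  D0 : D ≠ 0
  E0 : E ≠ 0
  eq : y ^ 2 + (1 - c) * x * y - b * y = x ^ 3 - b * x ^ 2

lemma nx_curve (hx : x ≠ 0) (h : y ^ 2 + (1 - c) * x * y - b * y = x ^ 3 - b * x ^ 2) :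
    (nx b (x, y)).2 ^ 2 + (1 - c) * (nx b (x, y)).1 * (nx b (x, y)).2 - b * (nx b (x, y)).2 =
      (nx b (x, y)).1 ^ 3 - b * (nx b (x, y)).1 ^ 2 := by
  show (b ^ 2 * (x ^ 2 - y) / x ^ 3) ^ 2 + (1 - c) * (b * y / x ^ 2) *
      (b ^ 2 * (x ^ 2 - y) / x ^ 3) - b * (b ^ 2 * (x ^ 2 - y) / x ^ 3) =
      (b * y / x ^ 2) ^ 3 - b * (b * y / x ^ 2) ^ 2
  field_simp
  linear_combination (b ^ 3 * (x ^ 2 - y)) * h

lemma Q6.next (hb : b = c + c ^ 2) (hb0 : b ≠ 0) (hc0 : c ≠ 0) (h : Q6 b c x y A B C D E) :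
    Q6 b c (nx2 b (x, y)).1 (nx2 b (x, y)).2 (b * A * E / (B * D)) (-(b * c * E ^ 2) / (B * C * D))
      (c ^ 2 * E ^ 2 / (B ^ 2 * C)) (b * c * A ^ 2 * E ^ 2 / (B * C * D ^ 2))
      (-(b * c ^ 2 * A * E ^ 2) / (B ^ 2 * C * D)) := by
  obtain ⟨hA, hB, hC, hD, hE, A0, B0, C0, D0, E0, he⟩ := h
  have q1 : (x ^ 2 - y) * B = D * E := by
    rw [← hB, ← hD, ← hE]
    linear_combination (-1) * he
  have q2 : (A * E - B * D) * C = -(c * E ^ 2) := by
    rw [← hA, ← hB, ← hC, ← hD, ← hE, hb]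
    rw [hb] at he
    linear_combination c * he
  have q5 : (A * E - C * D) * B = -(c * E * D) := by
    rw [← hA, ← hB, ← hC, ← hD, ← hE]
    linear_combination c * he
  have q3 : (b * (x ^ 2 - y) - c * x * y) * B * C = -c * y * E ^ 2 := by
    have e1 : (b * (x ^ 2 - y) - c * x * y) * B = -c * y * (x ^ 2 - (1 + c) * y) := by
      have : (b * (x ^ 2 - y) - c * x * y) * B = b * ((x ^ 2 - y) * B) - c * x * y * B := by ring
      rw [this, q1, ← hB, ← hD, ← hE, hb]
      ring
    have e2 : C * (x ^ 2 - (1 + c) * y) = E ^ 2 := by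
      rw [← hC, ← hE]
      rw [hb] at he
      linear_combination (-1) * he
    rw [e1, ← e2]; ring
  have hx1 : (nx b (x, y)).1 ≠ 0 := by
    show b * y / x ^ 2 ≠ 0
    rw [hA, hD]
    exact div_ne_zero (mul_ne_zero hb0 D0) (pow_ne_zero 2 A0)
  have hX : (nx2 b (x, y)).1 = b * A * E / (B * D) := by
    show b * (b ^ 2 * (x ^ 2 - y) / x ^ 3) / (b * y / x ^ 2) ^ 2 = _
    have e : x ^ 2 - y = D * E / B := by rw [eq_div_iff B0]; exact q1
    rw [e, hA, hD]
    field_simp
  have hY : (nx2 b (x, y)).2 = b * c * A ^ 2 * E ^ 2 / (B * C * D ^ 2) := by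
    show b ^ 2 * ((b * y / x ^ 2) ^ 2 - b ^ 2 * (x ^ 2 - y) / x ^ 3) / (b * y / x ^ 2) ^ 3 = _
    have e : (b * y / x ^ 2) ^ 2 - b ^ 2 * (x ^ 2 - y) / x ^ 3 =
        b ^ 2 * (y ^ 2 - x * (x ^ 2 - y)) / x ^ 4 := by
      have : x ≠ 0 := by rw [hA]; exact A0
      field_simp
    have e2 : y ^ 2 - x * (x ^ 2 - y) = c * D * E ^ 2 / (B * C) := by
      rw [eq_div_iff (mul_ne_zero B0 C0)]
      have e3 : y ^ 2 - x * (x ^ 2 - y) = -(b * (x ^ 2 - y) - c * x * y) := by
        linear_combination he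
      rw [e3, ← hD]
      linear_combination (-1) * q3
    rw [e, e2, hA, hD]
    field_simp
  refine ⟨hX, ?_, ?_, hY, ?_, ?_, ?_, ?_, ?_, ?_, ?_⟩
  · rw [hX, eq_div_iff (mul_ne_zero (mul_ne_zero B0 C0) D0)]
    have : (b * A * E / (B * D) - b) * (B * C * D) = b * ((A * E - B * D) * C) := by
      field_simp
    rw [this, q2]; ring
  · rw [hX, eq_div_iff (mul_ne_zero (pow_ne_zero 2 B0) C0)]
    have : (b * A * E / (B * D) - c) * (B ^ 2 * C) = (b * A * E - c * (B * D)) * B * C / D := by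
      field_simp
    rw [this, div_eq_iff D0]
    have e4 : b * A * E - c * (B * D) = -(c * (b * (x ^ 2 - y) - c * x * y)) := by
      rw [← hA, ← hB, ← hD, ← hE, hb]
      ring
    rw [e4, ← hD]
    linear_combination (-c) * q3
  · rw [hX, hY, eq_div_iff (mul_ne_zero (mul_ne_zero (pow_ne_zero 2 B0) C0) D0)]
    have : (b * c * A ^ 2 * E ^ 2 / (B * C * D ^ 2) - c * (b * A * E / (B * D))) *
        (B ^ 2 * C * D) = b * c * A * E * ((A * E - C * D) * B) / D := by
      field_simp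
    rw [this, q5]
    field_simp
  · exact div_ne_zero (mul_ne_zero (mul_ne_zero hb0 A0) E0) (mul_ne_zero B0 D0)
  · exact div_ne_zero (neg_ne_zero.mpr (mul_ne_zero (mul_ne_zero hb0 hc0) (pow_ne_zero 2 E0)))
      (mul_ne_zero (mul_ne_zero B0 C0) D0)
  · exact div_ne_zero (mul_ne_zero (pow_ne_zero 2 hc0) (pow_ne_zero 2 E0))
      (mul_ne_zero (pow_ne_zero 2 B0) C0)
  · exact div_ne_zero (mul_ne_zero (mul_ne_zero (mul_ne_zero hb0 hc0) (pow_ne_zero 2 A0))
      (pow_ne_zero 2 E0)) (mul_ne_zero (mul_ne_zero B0 C0) (pow_ne_zero 2 D0))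
  · exact div_ne_zero (neg_ne_zero.mpr (mul_ne_zero (mul_ne_zero (mul_ne_zero hb0
      (pow_ne_zero 2 hc0)) A0) (pow_ne_zero 2 E0))) (mul_ne_zero (mul_ne_zero
      (pow_ne_zero 2 B0) C0) D0)
  · exact nx_curve hx1 (nx_curve (by rw [hA]; exact A0) he)

lemma Q6.psi (h : Q6 b c x y A B C D E) : psi6 b c x y = A * B * C / E ^ 2 := by
  obtain ⟨hA, hB, hC, hD, hE, A0, B0, C0, D0, E0, he⟩ := h
  unfold psi6
  rw [hE, div_eq_div_iff E0 (pow_ne_zero 2 E0), ← hA, ← hB, ← hC, ← hE]
  linear_combination (y - c * x) * he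

lemma Q6.bar (h : Q6 b c x y A B C D E) : b - y - (1 - c) * x = -(A ^ 2 * B) / D := by
  obtain ⟨hA, hB, hC, hD, hE, A0, B0, C0, D0, E0, he⟩ := h
  rw [eq_div_iff D0, ← hA, ← hB, ← hD]
  linear_combination (-1) * he

end tup
/-- the terms of the class -/
def L6a : List Tm := [
  ⟨0, 0, [-2, -1, 0, 2, 0, 0]⟩,
  ⟨6, 0, [-1, 0, 1, 2, -2, 0]⟩,
  ⟨13, 4, [0, 1, -2, 0, 0, -2]⟩,
  ⟨2, 0, [2, 1, -1, -1, 0, -1]⟩,
  ⟨8, 0, [1, 1, -1, -1, 1, -1]⟩,
  ⟨12, 1, [0, 3, 1, -1, -2, -1]⟩,
  ⟨4, 0, [0, 0, 1, -1, 0, 1]⟩,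
  ⟨10, 0, [0, -1, 0, -1, 1, 1]⟩,
  ⟨14, 1, [-4, 0, -1, 1, 2, -1]⟩]

/-- the terms of the class -/
def L6b : List Tm := [
  ⟨0, 0, [-1, -1, -1, 0, 2, 0]⟩,
  ⟨6, 0, [1, 1, 1, 0, -2, 0]⟩,
  ⟨13, 4, [2, -1, 0, 0, 0, 0]⟩,
  ⟨2, 0, [1, 0, 0, 0, -1, 1]⟩,
  ⟨8, 0, [-1, 0, 0, 0, 1, -1]⟩,
  ⟨12, 1, [2, -1, 1, -1, 0, 0]⟩,
  ⟨4, 0, [0, 1, 1, 0, -1, -1]⟩,
  ⟨10, 0, [0, -1, -1, 0, 1, 1]⟩,
  ⟨14, 1, [0, -2, 1, 1, 0, 0]⟩]

/-- the terms of the class -/
def L6c : List Tm := [
  ⟨13, 4, [1, -1, -1, 0, 0, -2]⟩,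
  ⟨12, 1, [1, 2, 2, 0, -3, 1]⟩,
  ⟨14, 1, [-2, -1, -1, 0, 3, 1]⟩]

section terms

variable {F : Type*} [Field F] {b c x y A B C D E : F}

lemma Q6.next4 (hb : b = c + c ^ 2) (hb0 : b ≠ 0) (hc0 : c ≠ 0) (h : Q6 b c x y A B C D E) :
    Q6 b c (nx2 b (nx2 b (x, y))).1 (nx2 b (nx2 b (x, y))).2 (b * C * D / (B * E))
      (b * c * C * D / E ^ 2) (c ^ 2 * A ^ 2 * C / E ^ 2) (-(b ^ 2 * C ^ 2 * D) / (B * E ^ 2))
      (-(b * c * A * C ^ 2 * D) / E ^ 3) := by
  have h4 := (h.next hb hb0 hc0).next hb hb0 hc0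
  have A0 := h.A0
  have B0 := h.B0
  have C0 := h.C0
  have D0 := h.D0
  have E0 := h.E0
  have h4' : Q6 b c (nx2 b (nx2 b (x, y))).1 (nx2 b (nx2 b (x, y))).2 _ _ _ _ _ := h4
  convert h4' using 1 <;> field_simp

lemma hk_congr [CharZero F] {f f' u u' : F} (hf : f = f') (hu : u = u' ∨ u = -u') :
    hk (sy f) (lg u) = hk (sy f') (lg u') := by
  rw [hf]
  rcases hu with rfl | rfl
  · rfl
  · rw [lgneg]

lemma sum9 {M : Type*} [AddCommGroup M] {a1 a2 a3 a4 a5 a6 a7 a8 a9 b1 b2 b3 b4 b5 b6 b7 b8 b9 : M}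
    (h1 : b1 = a1) (h2 : b2 = a2) (h3 : b3 = a3) (h4 : b4 = a4) (h5 : b5 = a5) (h6 : b6 = a6)
    (h7 : b7 = a7) (h8 : b8 = a8) (h9 : b9 = a9) :
    b1 + b2 + b3 + (b4 + b5 + b6) + (b7 + b8 + b9) =
      a1 + (a2 + (a3 + (a4 + (a5 + (a6 + (a7 + (a8 + (a9 + 0)))))))) := by
  subst h1 h2 h3 h4 h5 h6 h7 h8 h9
  abel

lemma sum3 {M : Type*} [AddCommGroup M] {a1 a2 a3 b1 b2 b3 : M}
    (h1 : b1 = a1) (h2 : b2 = a2) (h3 : b3 = a3) : b1 + b2 + b3 = a1 + (a2 + (a3 + 0)) := by
  subst h1 h2 h3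
  abel

/-- one third of the class -/
noncomputable def tm6a (A B C D E : F) : HK F :=
  hk (sy (A / 2)) (lg (D ^ 2 / (A ^ 2 * B))) + hk (sy A) (lg (C * D ^ 2 / (A * E ^ 2))) +
    hk (sy (A * B * C / E ^ 2)) (lg (B / (4 * C ^ 2)))

/-- one third of the class -/
noncomputable def tm6b (A B C D E : F) : HK F :=
  hk (sy (A / 2)) (lg (E ^ 2 / (A * B * C))) + hk (sy (-A / 2)) (lg (A * B * C / E ^ 2)) +
    hk (sy (A * B * C / E ^ 2)) (lg (A ^ 2 / B))

/-- one third of the class -/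
noncomputable def tm6c (A B C D E : F) : HK F :=
  hk (sy (A * B * C / E ^ 2)) (lg (A / (4 * B * C)))

variable [CharZero F]

lemma term6a_eq (h : Q6 (2 : F) 1 x y A B C D E) : term6a x y = tm6a A B C D E := by
  have hy := h.bar
  have hp := h.psi
  obtain ⟨hA, hB, hC, hD, hE, A0, B0, C0, D0, E0, he⟩ := h
  rw [sub_self, zero_mul, sub_zero] at hy
  unfold term6a tm6a
  rw [hp, hy, hA, hD]
  rw [hA] at hB hC
  rw [hB, hC]
  have e1 : D / (-(A ^ 2 * B) / D) = -(D ^ 2 / (A ^ 2 * B)) := by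
    field_simp
  have e2 : -(A * B * C / E ^ 2) * D / (-(A ^ 2 * B) / D) = C * D ^ 2 / (A * E ^ 2) := by
    field_simp
  rw [e1, e2, lgneg]

lemma term6b_eq (h : Q6 (2 : F) (-2) x y A B C D E) : term6b x y = tm6b A B C D E := by
  have hp := h.psi
  obtain ⟨hA, hB, hC, hD, hE, A0, B0, C0, D0, E0, he⟩ := h
  unfold term6b tm6b
  rw [hp, hA]
  rw [hA] at hB hC
  rw [hB, inv_div]

lemma term6c_eq (h : Q6 (-1 / 4 : F) (-1 / 2) x y A B C D E) : term6c x y = tm6c A B C D E := by
  have hp := h.psi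
  obtain ⟨hA, hB, hC, hD, hE, A0, B0, C0, D0, E0, he⟩ := h
  unfold term6c tm6c
  rw [hp, hA]
  rw [hA] at hB hC
  have e1 : A + 1 / 4 = B := by rw [← hB]; ring
  have e2 : A + 1 / 2 = C := by rw [← hC]; ring
  rw [e1, e2]

/-- the class as a combination of monomials -/
theorem xi6a_zt (h : Q6 (2 : F) 1 x y A B C D E) :
    xi6a x y = zt [A, B, C, D, E, 2] cls1 L6a := by
  have hb : (2 : F) = 1 + 1 ^ 2 := by norm_num
  have hb0 : (2 : F) ≠ 0 := by norm_num
  have hc0 : (1 : F) ≠ 0 := by norm_num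
  have h2 := h.next hb hb0 hc0
  have h4 := h.next4 hb hb0 hc0
  have o1 : oo cls1 (0, 0) = (false, [1, 0, 0, 0, 0, -1]) := by decide
  have o2 : oo cls1 (6, 0) = (false, [1, 0, 0, 0, 0, 0]) := by decide
  have o3 : oo cls1 (13, 4) = (false, [1, 1, 1, 0, -2, 0]) := by decide
  have o4 : oo cls1 (2, 0) = (false, [1, -1, 0, -1, 1, 0]) := by decide
  have o5 : oo cls1 (8, 0) = (false, [1, -1, 0, -1, 1, 1]) := by decide
  have o6 : oo cls1 (12, 1) = (true, [-1, 0, 0, 0, 1, 0]) := by decide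
  have o7 : oo cls1 (4, 0) = (false, [0, -1, 1, 1, -1, 0]) := by decide
  have o8 : oo cls1 (10, 0) = (false, [0, -1, 1, 1, -1, 1]) := by decide
  have o9 : oo cls1 (14, 1) = (false, [0, -1, -1, 0, 1, 0]) := by decide
  rw [xi6a, sum6, term6a_eq h, term6a_eq h2, term6a_eq h4]
  simp only [L6a, zt, tm6a]
  rw [o1, o2, o3, o4, o5, o6, o7, o8, o9]
  have A0 := h.A0
  have B0 := h.B0
  have C0 := h.C0
  have D0 := h.D0
  have E0 := h.E0
  have t2 : (2 : F) ≠ 0 := two_ne_zero
  refine sum9 ?_ ?_ ?_ ?_ ?_ ?_ ?_ ?_ ?_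
  · refine hk_congr ?_ ?_
    · simp only [ev, evl, cond_true, cond_false, zpow_one, zpow_zero, zpow_neg, zpow_ofNat,
        mul_one, one_mul]
      field_simp
      try norm_num
    · refine Or.inl ?_
      simp only [evl, zpow_one, zpow_zero, zpow_neg, zpow_ofNat, mul_one, one_mul]
      field_simp
      try norm_num
  · refine hk_congr ?_ ?_
    · simp only [ev, evl, cond_true, cond_false, zpow_one, zpow_zero, zpow_neg, zpow_ofNat,
        mul_one, one_mul]
      field_simp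
      try norm_num
    · refine Or.inl ?_
      simp only [evl, zpow_one, zpow_zero, zpow_neg, zpow_ofNat, mul_one, one_mul]
      field_simp
      try norm_num
  · refine hk_congr ?_ ?_
    · simp only [ev, evl, cond_true, cond_false, zpow_one, zpow_zero, zpow_neg, zpow_ofNat,
        mul_one, one_mul]
      field_simp
      try norm_num
    · refine Or.inl ?_
      simp only [evl, zpow_one, zpow_zero, zpow_neg, zpow_ofNat, mul_one, one_mul]
      field_simp
      try norm_num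
  · refine hk_congr ?_ ?_
    · simp only [ev, evl, cond_true, cond_false, zpow_one, zpow_zero, zpow_neg, zpow_ofNat,
        mul_one, one_mul]
      field_simp
      try norm_num
    · refine Or.inr ?_
      simp only [evl, zpow_one, zpow_zero, zpow_neg, zpow_ofNat, mul_one, one_mul]
      field_simp
      try norm_num
  · refine hk_congr ?_ ?_
    · simp only [ev, evl, cond_true, cond_false, zpow_one, zpow_zero, zpow_neg, zpow_ofNat,
        mul_one, one_mul]
      field_simp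
      try norm_num
    · refine Or.inl ?_
      simp only [evl, zpow_one, zpow_zero, zpow_neg, zpow_ofNat, mul_one, one_mul]
      field_simp
      try norm_num
  · refine hk_congr ?_ ?_
    · simp only [ev, evl, cond_true, cond_false, zpow_one, zpow_zero, zpow_neg, zpow_ofNat,
        mul_one, one_mul]
      field_simp
      try norm_num
    · refine Or.inr ?_
      simp only [evl, zpow_one, zpow_zero, zpow_neg, zpow_ofNat, mul_one, one_mul]
      field_simp
      try norm_num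
  · refine hk_congr ?_ ?_
    · simp only [ev, evl, cond_true, cond_false, zpow_one, zpow_zero, zpow_neg, zpow_ofNat,
        mul_one, one_mul]
      field_simp
      try norm_num
    · refine Or.inl ?_
      simp only [evl, zpow_one, zpow_zero, zpow_neg, zpow_ofNat, mul_one, one_mul]
      field_simp
      try norm_num
  · refine hk_congr ?_ ?_
    · simp only [ev, evl, cond_true, cond_false, zpow_one, zpow_zero, zpow_neg, zpow_ofNat,
        mul_one, one_mul]
      field_simp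
      try norm_num
    · refine Or.inl ?_
      simp only [evl, zpow_one, zpow_zero, zpow_neg, zpow_ofNat, mul_one, one_mul]
      field_simp
      try norm_num
  · refine hk_congr ?_ ?_
    · simp only [ev, evl, cond_true, cond_false, zpow_one, zpow_zero, zpow_neg, zpow_ofNat,
        mul_one, one_mul]
      field_simp
      try norm_num
    · refine Or.inl ?_
      simp only [evl, zpow_one, zpow_zero, zpow_neg, zpow_ofNat, mul_one, one_mul]
      field_simp
      try norm_num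

/-- the class as a combination of monomials -/
theorem xi6b_zt (h : Q6 (2 : F) (-2) x y A B C D E) :
    xi6b x y = zt [A, B, C, D, E, 2] cls2 L6b := by
  have hb : (2 : F) = (-2) + (-2) ^ 2 := by norm_num
  have hb0 : (2 : F) ≠ 0 := by norm_num
  have hc0 : ((-2) : F) ≠ 0 := by norm_num
  have h2 := h.next hb hb0 hc0
  have h4 := h.next4 hb hb0 hc0
  have o1 : oo cls2 (0, 0) = (false, [1, 0, 0, 0, 0, -1]) := by decide
  have o2 : oo cls2 (6, 0) = (true, [1, 0, 0, 0, 0, -1]) := by decide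
  have o3 : oo cls2 (13, 4) = (false, [1, 1, 1, 0, -2, 0]) := by decide
  have o4 : oo cls2 (2, 0) = (false, [1, -1, 0, -1, 1, 0]) := by decide
  have o5 : oo cls2 (8, 0) = (true, [1, -1, 0, -1, 1, 0]) := by decide
  have o6 : oo cls2 (12, 1) = (false, [-1, 0, 0, 0, 1, -1]) := by decide
  have o7 : oo cls2 (4, 0) = (false, [0, -1, 1, 1, -1, 0]) := by decide
  have o8 : oo cls2 (10, 0) = (true, [0, -1, 1, 1, -1, 0]) := by decide
  have o9 : oo cls2 (14, 1) = (true, [0, -1, -1, 0, 1, 1]) := by decide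
  rw [xi6b, sum6, term6b_eq h, term6b_eq h2, term6b_eq h4]
  simp only [L6b, zt, tm6b]
  rw [o1, o2, o3, o4, o5, o6, o7, o8, o9]
  have A0 := h.A0
  have B0 := h.B0
  have C0 := h.C0
  have D0 := h.D0
  have E0 := h.E0
  have t2 : (2 : F) ≠ 0 := two_ne_zero
  refine sum9 ?_ ?_ ?_ ?_ ?_ ?_ ?_ ?_ ?_
  · refine hk_congr ?_ ?_
    · simp only [ev, evl, cond_true, cond_false, zpow_one, zpow_zero, zpow_neg, zpow_ofNat,
        mul_one, one_mul]
      field_simp
      try norm_num
    · refine Or.inl ?_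
      simp only [evl, zpow_one, zpow_zero, zpow_neg, zpow_ofNat, mul_one, one_mul]
      field_simp
      try norm_num
  · refine hk_congr ?_ ?_
    · simp only [ev, evl, cond_true, cond_false, zpow_one, zpow_zero, zpow_neg, zpow_ofNat,
        mul_one, one_mul]
      field_simp
      try norm_num
    · refine Or.inl ?_
      simp only [evl, zpow_one, zpow_zero, zpow_neg, zpow_ofNat, mul_one, one_mul]
      field_simp
      try norm_num
  · refine hk_congr ?_ ?_
    · simp only [ev, evl, cond_true, cond_false, zpow_one, zpow_zero, zpow_neg, zpow_ofNat,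
        mul_one, one_mul]
      field_simp
      try norm_num
    · refine Or.inl ?_
      simp only [evl, zpow_one, zpow_zero, zpow_neg, zpow_ofNat, mul_one, one_mul]
      field_simp
      try norm_num
  · refine hk_congr ?_ ?_
    · simp only [ev, evl, cond_true, cond_false, zpow_one, zpow_zero, zpow_neg, zpow_ofNat,
        mul_one, one_mul]
      field_simp
      try norm_num
    · refine Or.inl ?_
      simp only [evl, zpow_one, zpow_zero, zpow_neg, zpow_ofNat, mul_one, one_mul]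
      field_simp
      try norm_num
  · refine hk_congr ?_ ?_
    · simp only [ev, evl, cond_true, cond_false, zpow_one, zpow_zero, zpow_neg, zpow_ofNat,
        mul_one, one_mul]
      field_simp
      try norm_num
    · refine Or.inl ?_
      simp only [evl, zpow_one, zpow_zero, zpow_neg, zpow_ofNat, mul_one, one_mul]
      field_simp
      try norm_num
  · refine hk_congr ?_ ?_
    · simp only [ev, evl, cond_true, cond_false, zpow_one, zpow_zero, zpow_neg, zpow_ofNat,
        mul_one, one_mul]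
      field_simp
      try norm_num
    · refine Or.inl ?_
      simp only [evl, zpow_one, zpow_zero, zpow_neg, zpow_ofNat, mul_one, one_mul]
      field_simp
      try norm_num
  · refine hk_congr ?_ ?_
    · simp only [ev, evl, cond_true, cond_false, zpow_one, zpow_zero, zpow_neg, zpow_ofNat,
        mul_one, one_mul]
      field_simp
      try norm_num
    · refine Or.inr ?_
      simp only [evl, zpow_one, zpow_zero, zpow_neg, zpow_ofNat, mul_one, one_mul]
      field_simp
      try norm_num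
  · refine hk_congr ?_ ?_
    · simp only [ev, evl, cond_true, cond_false, zpow_one, zpow_zero, zpow_neg, zpow_ofNat,
        mul_one, one_mul]
      field_simp
      try norm_num
    · refine Or.inr ?_
      simp only [evl, zpow_one, zpow_zero, zpow_neg, zpow_ofNat, mul_one, one_mul]
      field_simp
      try norm_num
  · refine hk_congr ?_ ?_
    · simp only [ev, evl, cond_true, cond_false, zpow_one, zpow_zero, zpow_neg, zpow_ofNat,
        mul_one, one_mul]
      field_simp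
      try norm_num
    · refine Or.inr ?_
      simp only [evl, zpow_one, zpow_zero, zpow_neg, zpow_ofNat, mul_one, one_mul]
      field_simp
      try norm_num

/-- the class as a combination of monomials -/
theorem xi6c_zt (h : Q6 ((-1 / 4) : F) (-1 / 2) x y A B C D E) :
    xi6c x y = zt [A, B, C, D, E, 2] cls3 L6c := by
  have hb : ((-1 / 4) : F) = (-1 / 2) + (-1 / 2) ^ 2 := by norm_num
  have hb0 : ((-1 / 4) : F) ≠ 0 := by norm_num
  have hc0 : ((-1 / 2) : F) ≠ 0 := by norm_num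
  have h2 := h.next hb hb0 hc0
  have h4 := h.next4 hb hb0 hc0
  have o1 : oo cls3 (13, 4) = (false, [1, 1, 1, 0, -2, 0]) := by decide
  have o2 : oo cls3 (12, 1) = (false, [-1, 0, 0, 0, 1, 1]) := by decide
  have o3 : oo cls3 (14, 1) = (true, [0, -1, -1, 0, 1, -1]) := by decide
  rw [xi6c, sum6, term6c_eq h, term6c_eq h2, term6c_eq h4]
  simp only [L6c, zt, tm6c]
  rw [o1, o2, o3]
  have A0 := h.A0
  have B0 := h.B0
  have C0 := h.C0
  have D0 := h.D0
  have E0 := h.E0
  have t2 : (2 : F) ≠ 0 := two_ne_zero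
  refine sum3 ?_ ?_ ?_
  · refine hk_congr ?_ ?_
    · simp only [ev, evl, cond_true, cond_false, zpow_one, zpow_zero, zpow_neg, zpow_ofNat,
        mul_one, one_mul]
      field_simp
      try norm_num
    · refine Or.inl ?_
      simp only [evl, zpow_one, zpow_zero, zpow_neg, zpow_ofNat, mul_one, one_mul]
      field_simp
      try norm_num
  · refine hk_congr ?_ ?_
    · simp only [ev, evl, cond_true, cond_false, zpow_one, zpow_zero, zpow_neg, zpow_ofNat,
        mul_one, one_mul]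
      field_simp
      try norm_num
    · refine Or.inl ?_
      simp only [evl, zpow_one, zpow_zero, zpow_neg, zpow_ofNat, mul_one, one_mul]
      field_simp
      try norm_num
  · refine hk_congr ?_ ?_
    · simp only [ev, evl, cond_true, cond_false, zpow_one, zpow_zero, zpow_neg, zpow_ofNat,
        mul_one, one_mul]
      field_simp
      try norm_num
    · refine Or.inr ?_
      simp only [evl, zpow_one, zpow_zero, zpow_neg, zpow_ofNat, mul_one, one_mul]
      field_simp
      try norm_num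

end terms

end Pool.Agent.FK4
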