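import Pool.Agent.Lib_helper24.FAM.DefsU
import Pool.Agent.Lib_helper99.RT.D
import Pool.Agent.Lib_helper60.FAM.Star
import Pool.Agent.Lib_helper65.TUQ.Cub

set_option autoImplicit false

/-!
# Multiplicative independence over the rationals: the six orders
-/

namespace Pool.Agent.FK4

theorem overQ : OverQ := by
  obtain ⟨h6, h7, h8, h9⟩ := overQ4
  refine ⟨h6, h7, h8, fun d h0 h1 => ?_, fun t h0 h1 h2 => ?_, fun t h0 h1 h2 => ?_⟩
  · rcases h9 d h0 h1 with h | h | h | h
    · exact Or.inl h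
    · exact Or.inr (Or.inl h)
    · exact Or.inr (Or.inr (Or.inl h))
    · exact Or.inr (Or.inr (Or.inr ⟨h, cub9_rat d⟩))
  · rcases RT.indep10_rat h0 h1 h2 with h | h | h | h | h | h | h | h | h | h | h | h | h <;> tauto
  · rcases RT.indep12_rat h0 h1 h2 with h | h | h | h | h | h | h | h | h
    · exact Or.inl h
    · exact Or.inr (Or.inl h)
    · exact Or.inr (Or.inr (Or.inl h))
    · exact Or.inr (Or.inr (Or.inr (Or.inl h)))
    · exact Or.inr (Or.inr (Or.inr (Or.inr (Or.inl h))))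
    · exact Or.inr (Or.inr (Or.inr (Or.inr (Or.inr (Or.inl h)))))
    · exact Or.inr (Or.inr (Or.inr (Or.inr (Or.inr (Or.inr (Or.inl h))))))
    · exact Or.inr (Or.inr (Or.inr (Or.inr (Or.inr (Or.inr (Or.inr (Or.inl h)))))))
    · exact Or.inr (Or.inr (Or.inr (Or.inr (Or.inr (Or.inr (Or.inr (Or.inr
        ⟨h, star12_rat h0 h1⟩)))))))

end Pool.Agent.FK4
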